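import Mathlib

set_option autoImplicit false

/-! Irreducibility of `X ^ p - X - c` in characteristic `p`. -/

namespace Pool.Agent.Helper48.ETC

open Polynomial

/-- a polynomial `X ^ p - X - c` without roots is irreducible -/
theorem as_irr {k : Type*} [Field k] {p : ℕ} [Fact p.Prime] [CharP k p] (c : k)
    (hc : ∀ y : k, y ^ p - y ≠ c) : Irreducible (X ^ p - X - C c : k[X]) := by
  classical
  have hp : p.Prime := Fact.out
  have hd1 : (X + C c : k[X]).natDegree = 1 := natDegree_X_add_C c
  have he : (X ^ p - X - C c : k[X]) = X ^ p - (X + C c) := by ring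
  have hdlt : (X + C c : k[X]).degree < (p : ℕ) := by
    rw [degree_X_add_C]
    exact_mod_cast hp.one_lt
  have hm : (X ^ p - X - C c : k[X]).Monic := by
    rw [he]
    exact monic_X_pow_sub hdlt
  have hnd : (X ^ p - X - C c : k[X]).natDegree = p := by
    rw [he, natDegree_sub_eq_left_of_natDegree_lt, natDegree_X_pow]
    rw [natDegree_X_pow, hd1]
    exact hp.one_lt
  rw [hm.irreducible_iff_natDegree']
  refine ⟨fun e => ?_, fun f g hf hg hfg hmem => ?_⟩
  · rw [e, natDegree_one] at hnd
    exact hp.ne_zero hnd.symm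
  rw [Finset.mem_Ioc, hnd] at hmem
  obtain ⟨h0, h1⟩ := hmem
  have hltp : g.natDegree < p := h1.trans_lt (Nat.div_lt_self hp.pos one_lt_two)
  -- a root in the algebraic closure
  have hcp : CharP (AlgebraicClosure k) p := charP_of_injective_algebraMap
    (algebraMap k (AlgebraicClosure k)).injective p
  have hroot : ∀ s : AlgebraicClosure k, aeval s (X ^ p - X - C c : k[X]) = 0 ↔
      s ^ p - s = algebraMap k (AlgebraicClosure k) c := by
    intro s
    simp only [map_sub, map_pow, aeval_X, aeval_C]
    rw [sub_eq_zero]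
  obtain ⟨r, hr⟩ := IsAlgClosed.exists_aeval_eq_zero (AlgebraicClosure k)
    (X ^ p - X - C c : k[X]) (by
      rw [degree_eq_natDegree hm.ne_zero, hnd]
      exact_mod_cast hp.ne_zero)
  rw [hroot] at hr
  obtain ⟨S, hS⟩ : ∃ S : Subfield (AlgebraicClosure k),
      S = (algebraMap k (AlgebraicClosure k)).fieldRange := ⟨_, rfl⟩
  have hrS : r ∉ S := by
    rw [hS]
    rintro ⟨y, rfl⟩
    apply hc y
    apply (algebraMap k (AlgebraicClosure k)).injective
    rw [map_sub, map_pow, hr]
  have hdiff : ∀ s : AlgebraicClosure k, s ^ p - s = algebraMap k (AlgebraicClosure k) c →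
      s - r ∈ S := by
    intro s hs
    have h2 : (s - r) ^ p = s - r := by
      rw [sub_pow_char]
      linear_combination hs - hr
    have h3 : s - r ∈ (⊥ : Subfield (AlgebraicClosure k)) :=
      (Subfield.mem_bot_iff_pow_eq_self (AlgebraicClosure k) p).2 h2
    exact (bot_le : (⊥ : Subfield (AlgebraicClosure k)) ≤ S) h3
  have hsum : ∀ m : Multiset (AlgebraicClosure k), (∀ s ∈ m, s - r ∈ S) →
      m.sum - (Multiset.card m : AlgebraicClosure k) * r ∈ S := by
    intro m
    induction m using Multiset.induction_on with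
    | empty => intro _; simp [S.zero_mem]
    | cons a m ih =>
      intro ha
      rw [Multiset.sum_cons, Multiset.card_cons]
      have e : a + m.sum - ((Multiset.card m + 1 : ℕ) : AlgebraicClosure k) * r =
          (a - r) + (m.sum - (Multiset.card m : AlgebraicClosure k) * r) := by
        push_cast
        ring
      rw [e]
      exact S.add_mem (ha a (Multiset.mem_cons_self a m))
        (ih fun s hs => ha s (Multiset.mem_cons_of_mem hs))
  have hspl : ((g.map (algebraMap k (AlgebraicClosure k)))).Splits := IsAlgClosed.splits _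
  have h2 := hsum (g.map (algebraMap k (AlgebraicClosure k))).roots (by
    intro s hs
    apply hdiff
    rw [← hroot, ← hfg, map_mul]
    have h3 := (mem_roots'.1 hs).2
    rw [IsRoot.def, eval_map_algebraMap] at h3
    rw [h3, mul_zero])
  have h3 := hspl.nextCoeff_eq_neg_sum_roots_of_monic (hg.map _)
  have h4 : (g.map (algebraMap k (AlgebraicClosure k))).roots.sum ∈ S := by
    have h5 : (g.map (algebraMap k (AlgebraicClosure k))).roots.sum =
        -(g.map (algebraMap k (AlgebraicClosure k))).nextCoeff := by
      rw [h3, neg_neg]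
    rw [h5]
    apply S.neg_mem
    rw [nextCoeff_map (algebraMap k (AlgebraicClosure k)).injective, hS]
    exact ⟨_, rfl⟩
  have h5 : Multiset.card (g.map (algebraMap k (AlgebraicClosure k))).roots = g.natDegree := by
    rw [← hspl.natDegree_eq_card_roots, natDegree_map]
  rw [h5] at h2
  have h6 : (g.natDegree : AlgebraicClosure k) * r ∈ S := by
    have := S.sub_mem h4 h2
    rwa [sub_sub_cancel] at this
  have h7 : (g.natDegree : AlgebraicClosure k) ≠ 0 := by
    intro e
    rw [CharP.cast_eq_zero_iff (AlgebraicClosure k) p] at e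
    exact absurd (Nat.le_of_dvd h0 e) (not_le.2 hltp)
  apply hrS
  have h8 := S.mul_mem (S.inv_mem (natCast_mem S g.natDegree)) h6
  rwa [inv_mul_cancel_left₀ h7] at h8

end Pool.Agent.Helper48.ETC
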