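import Mathlib

set_option autoImplicit false

/-! Norms from an extension generated by a root of a polynomial whose reduction is irreducible. -/

namespace Pool.Agent.Helper48.ETC

open Polynomial

/-- the norm of a class of polynomials as a determinant -/
lemma norm_mk {R : Type*} [CommRing R] {h : R[X]} (hm : h.Monic) (g : R[X]) :
    Algebra.norm R (AdjoinRoot.mk h g) =
      (Matrix.of fun i j : Fin h.natDegree => ((g * X ^ (j : ℕ)) %ₘ h).coeff i).det := by
  classical
  rw [Algebra.norm_eq_matrix_det (AdjoinRoot.powerBasisAux' hm)]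
  congr 1
  ext i j
  have hb : (AdjoinRoot.powerBasisAux' hm) j = AdjoinRoot.mk h (X ^ (j : ℕ)) := by
    have h1 := (AdjoinRoot.powerBasis' hm).basis_eq_pow j
    rw [AdjoinRoot.powerBasis'_gen, ← AdjoinRoot.mk_X, ← map_pow] at h1
    exact h1
  rw [Algebra.leftMulMatrix_eq_repr_mul, hb, ← map_mul,
    AdjoinRoot.powerBasisAux'_repr_apply_to_fun, AdjoinRoot.modByMonicHom_mk, Matrix.of_apply]

/-- the norm is compatible with homomorphisms -/
lemma norm_map {R S : Type*} [CommRing R] [CommRing S] (f : R →+* S) {h : R[X]} (hm : h.Monic)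
    (g : R[X]) : Algebra.norm S (AdjoinRoot.mk (h.map f) (g.map f)) =
      f (Algebra.norm R (AdjoinRoot.mk h g)) := by
  nontriviality S
  rw [norm_mk (hm.map f), norm_mk hm, RingHom.map_det]
  have hd : (h.map f).natDegree = h.natDegree := hm.natDegree_map f
  have e : ∀ (n m : ℕ) (hnm : n = m) (u : ℕ → ℕ → S),
      (Matrix.of fun i j : Fin n => u i j).det = (Matrix.of fun i j : Fin m => u i j).det := by
    rintro n _ rfl u
    rfl
  rw [e _ _ hd fun i j => ((g.map f * X ^ j) %ₘ h.map f).coeff i]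
  congr 1
  ext i j
  rw [RingHom.mapMatrix_apply, Matrix.map_apply, Matrix.of_apply, Matrix.of_apply, ← coeff_map,
    Polynomial.map_modByMonic f hm, Polynomial.map_mul, Polynomial.map_pow, map_X]

/-- the value of a norm if the reduction of the polynomial is irreducible -/
theorem unr {E : Type*} [Field E] (O : ValuationSubring E) {h : O[X]} (hm : h.Monic)
    (hirr : Irreducible (h.map (IsLocalRing.residue O)))
    (y : AdjoinRoot (h.map (algebraMap O E))) (hy : y ≠ 0) :
    ∃ c : E, c ≠ 0 ∧ O.valuation (Algebra.norm E y) = O.valuation c ^ h.natDegree := by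
  classical
  have hmE : (h.map (algebraMap O E)).Monic := hm.map _
  obtain ⟨g', rfl⟩ := AdjoinRoot.mk_surjective y
  obtain ⟨g, hg⟩ : ∃ g, g = g' %ₘ h.map (algebraMap O E) := ⟨_, rfl⟩
  have hgg : AdjoinRoot.mk (h.map (algebraMap O E)) g' = AdjoinRoot.mk _ g := by
    rw [AdjoinRoot.mk_eq_mk, hg, Polynomial.modByMonic_eq_sub_mul_div, sub_sub_cancel]
    exact dvd_mul_right _ _
  have hgd : g.degree < (h.map (algebraMap O E)).degree := by
    rw [hg]
    exact degree_modByMonic_lt _ hmE
  rw [hgg] at hy ⊢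
  have hg0 : g ≠ 0 := by
    rintro e
    apply hy
    rw [e, map_zero]
  -- the dominant coefficient
  obtain ⟨i₀, hi₀, hmax⟩ := g.support.exists_max_image (fun i => O.valuation (g.coeff i))
    (support_nonempty.2 hg0)
  have hc0 : g.coeff i₀ ≠ 0 := mem_support_iff.1 hi₀
  have hle : ∀ i, O.valuation (g.coeff i) ≤ O.valuation (g.coeff i₀) := by
    intro i
    by_cases hi : i ∈ g.support
    · exact hmax i hi
    · rw [notMem_support_iff.1 hi, map_zero]
      exact zero_le
  obtain ⟨c, hc⟩ : ∃ c, c = g.coeff i₀ := ⟨_, rfl⟩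
  rw [← hc] at hle hc0
  have hcv : 0 < O.valuation c := zero_lt_iff.2 ((Valuation.ne_zero_iff _).2 hc0)
  have hlift : ∃ g₀ : O[X], g₀.map (algebraMap O E) = C c⁻¹ * g ∧ g₀.degree = (C c⁻¹ * g).degree := by
    have h1 : C c⁻¹ * g ∈ lifts (algebraMap O E) := by
      rw [lifts_iff_coeff_lifts]
      intro i
      rw [coeff_C_mul]
      refine ⟨⟨c⁻¹ * g.coeff i, ?_⟩, rfl⟩
      rw [← O.valuation_le_one_iff, map_mul, map_inv₀, inv_mul_le_iff₀ hcv, mul_one]
      exact hle i
    exact exists_degree_eq_of_mem_lifts h1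
  obtain ⟨g₀, hg₀, hg₀d⟩ := hlift
  have hci : C c⁻¹ * g ≠ 0 := mul_ne_zero (C_ne_zero.2 (inv_ne_zero hc0)) hg0
  have hdeg : g₀.degree < h.degree := by
    rw [hg₀d, degree_mul, degree_C (inv_ne_zero hc0), zero_add]
    rwa [hm.degree_map] at hgd
  have hc1 : (g₀.map (IsLocalRing.residue O)).coeff i₀ ≠ 0 := by
    rw [coeff_map]
    have h1 : ((g₀.coeff i₀ : O) : E) = 1 := by
      have h2 := congrArg (fun q => coeff q i₀) hg₀
      simp only [coeff_map, coeff_C_mul] at h2
      rw [← hc, inv_mul_cancel₀ hc0] at h2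
      exact h2
    have h3 : g₀.coeff i₀ = 1 := Subtype.ext h1
    rw [h3, map_one]
    exact one_ne_zero
  have hne : (g₀.map (IsLocalRing.residue O)) ≠ 0 := by
    intro e
    rw [e, coeff_zero] at hc1
    exact hc1 rfl
  have hunit : O.valuation ((Algebra.norm O (AdjoinRoot.mk h g₀) : O) : E) = 1 := by
    rw [← ValuationSubring.valuation_eq_one_iff]
    by_contra hcon
    have h1 : IsLocalRing.residue O (Algebra.norm O (AdjoinRoot.mk h g₀)) = 0 := by
      rw [IsLocalRing.residue_eq_zero_iff, IsLocalRing.mem_maximalIdeal]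
      exact hcon
    rw [← norm_map _ hm] at h1
    have _ : Fact (Irreducible (h.map (IsLocalRing.residue O))) := ⟨hirr⟩
    have hmk := hm.map (IsLocalRing.residue O)
    have _ : Module.Finite (IsLocalRing.ResidueField O)
      (AdjoinRoot (h.map (IsLocalRing.residue O))) := hmk.finite_adjoinRoot
    rw [Algebra.norm_eq_zero_iff, AdjoinRoot.mk_eq_zero] at h1
    have h2 := degree_le_of_dvd h1 hne
    have h3 : (g₀.map (IsLocalRing.residue O)).degree < (h.map (IsLocalRing.residue O)).degree := by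
      rw [hm.degree_map]
      exact degree_map_le.trans_lt hdeg
    exact absurd h2 (not_le.2 h3)
  refine ⟨c, hc0, ?_⟩
  have h1 : AdjoinRoot.mk (h.map (algebraMap O E)) g =
      algebraMap E _ c * AdjoinRoot.mk (h.map (algebraMap O E)) (g₀.map (algebraMap O E)) := by
    rw [hg₀, map_mul, AdjoinRoot.mk_C, ← mul_assoc, AdjoinRoot.algebraMap_eq, ← map_mul,
      mul_inv_cancel₀ hc0, map_one, one_mul]
  have hfr : Module.finrank E (AdjoinRoot (h.map (algebraMap O E))) = h.natDegree := by
    rw [(AdjoinRoot.powerBasis' hmE).finrank, AdjoinRoot.powerBasis'_dim, hm.natDegree_map]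
  rw [h1, map_mul, Algebra.norm_algebraMap, hfr, norm_map _ hm, map_mul, map_pow]
  have h2 : O.valuation ((algebraMap O E) (Algebra.norm O (AdjoinRoot.mk h g₀))) = 1 := hunit
  rw [h2, mul_one]

end Pool.Agent.Helper48.ETC
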