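import Mathlib
import Pool.Agent.Helper58.ET.Dsc
import Pool.Agent.Helper48.ETC.Unr
import Pool.Agent.Helper48.ETC.As

set_option autoImplicit false

/-! Norms from the unramified extension `E(t ^ (1/p))`, `|t - 1| ≤ |1 - ζ| ^ p`, in residue
characteristic `p`. -/

namespace Pool.Agent.Helper48.ETC

open Polynomial Pool.Agent.Helper58.EB Pool.Agent.Helper58.ET

/-- a substitution -/
lemma exists_equiv {E : Type*} [Field E] {l u : E} (hl : l ≠ 0) (hu : u ≠ 0) {f g : E[X]}
    (h : f.comp (1 + C l * X) = C u * g) : Nonempty (AdjoinRoot f ≃ₐ[E] AdjoinRoot g) := by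
  have hA : aeval (1 + algebraMap E (AdjoinRoot g) l * AdjoinRoot.root g) f = 0 := by
    have h1 := congrArg (aeval (AdjoinRoot.root g)) h
    rw [aeval_comp, map_mul, AdjoinRoot.aeval_eq g, AdjoinRoot.mk_self, mul_zero, map_add, map_mul,
      aeval_C, aeval_X, map_one] at h1
    exact h1
  have hB : aeval ((AdjoinRoot.root f - 1) * algebraMap E (AdjoinRoot f) l⁻¹) g = 0 := by
    have h1 := congrArg (aeval ((AdjoinRoot.root f - 1) * algebraMap E (AdjoinRoot f) l⁻¹)) h
    rw [aeval_comp, map_mul, map_add, map_mul, aeval_C, aeval_X, map_one, aeval_C] at h1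
    have h2 : algebraMap E (AdjoinRoot f) l *
        ((AdjoinRoot.root f - 1) * algebraMap E (AdjoinRoot f) l⁻¹) = AdjoinRoot.root f - 1 := by
      rw [mul_comm, mul_assoc, ← map_mul, inv_mul_cancel₀ hl, map_one, mul_one]
    rw [h2, add_sub_cancel, AdjoinRoot.aeval_eq, AdjoinRoot.mk_self] at h1
    have h3 : algebraMap E (AdjoinRoot f) u⁻¹ * algebraMap E (AdjoinRoot f) u = 1 := by
      rw [← map_mul, inv_mul_cancel₀ hu, map_one]
    generalize aeval ((AdjoinRoot.root f - 1) * algebraMap E (AdjoinRoot f) l⁻¹) g = q at h1 ⊢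
    rw [← one_mul q, ← h3, mul_assoc, ← h1, mul_zero]
  obtain ⟨φ, hφ⟩ : ∃ φ : AdjoinRoot f →ₐ[E] AdjoinRoot g, φ (AdjoinRoot.root f) =
      1 + algebraMap E (AdjoinRoot g) l * AdjoinRoot.root g :=
    ⟨AdjoinRoot.liftAlgHom f (Algebra.ofId E _) _ hA, AdjoinRoot.liftAlgHom_root _ _ _ _⟩
  obtain ⟨ψ, hψ⟩ : ∃ ψ : AdjoinRoot g →ₐ[E] AdjoinRoot f, ψ (AdjoinRoot.root g) =
      (AdjoinRoot.root f - 1) * algebraMap E (AdjoinRoot f) l⁻¹ :=
    ⟨AdjoinRoot.liftAlgHom g (Algebra.ofId E _) _ hB, AdjoinRoot.liftAlgHom_root _ _ _ _⟩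
  refine ⟨AlgEquiv.ofAlgHom φ ψ ?_ ?_⟩
  · apply AdjoinRoot.algHom_ext
    rw [AlgHom.comp_apply, hψ, map_mul, map_sub, hφ, AlgHom.commutes, map_one, AlgHom.id_apply,
      add_sub_cancel_left, mul_comm, ← mul_assoc, ← map_mul, inv_mul_cancel₀ hl, map_one, one_mul]
  · apply AdjoinRoot.algHom_ext
    rw [AlgHom.comp_apply, hφ, map_add, map_mul, hψ, AlgHom.commutes, map_one, AlgHom.id_apply,
      mul_comm, mul_assoc, ← map_mul, inv_mul_cancel₀ hl, map_one, mul_one, add_sub_cancel]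

section

variable {E : Type} [Field E] {p : ℕ} (hp : p.Prime) {ζ : Eˣ} (hζ : IsPrimitiveRoot ζ p)
  (O : ValuationSubring E) (hpO : O.valuation (p : E) < 1)

include hp hζ hpO in
/-- the binomial expansion of `(1 + l X) ^ p` with `l = 1 - ζ` -/
lemma exists_poly : ∃ (l ε : O) (r : O[X]), (l : E) = 1 - ζ ∧ IsLocalRing.residue O l = 0 ∧
    l ≠ 0 ∧ IsLocalRing.residue O ε = -1 ∧
    (1 + C l * X) ^ p = 1 + C (l ^ p) * (X ^ p + C ε * X * (1 + C l * X * r)) := by
  have _ : Fact p.Prime := ⟨hp⟩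
  have _ := charP_res O hp hpO
  have hl0 := lam_ne hp hζ
  have hlt := val_lam' hp hζ O hpO
  obtain ⟨l, hl⟩ : ∃ l : O, (l : E) = 1 - ζ := ⟨⟨1 - ζ, (O.valuation_le_one_iff _).1 hlt.le⟩, rfl⟩
  have hε1 : O.valuation ((p : E) / (1 - (ζ : E)) ^ (p - 1)) = 1 := by
    rw [map_div₀, map_pow, ← val_p hp hζ O, div_self]
    rw [val_p hp hζ O, ← map_pow, Valuation.ne_zero_iff]
    exact pow_ne_zero _ hl0
  obtain ⟨ε, hε⟩ : ∃ ε : O, (ε : E) = (p : E) / (1 - (ζ : E)) ^ (p - 1) :=
    ⟨⟨_, (O.valuation_le_one_iff _).1 hε1.le⟩, rfl⟩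
  obtain ⟨r, hr⟩ := expand hp (C l * X : O[X])
  have hlO : l ≠ 0 := by
    rintro rfl
    apply hl0
    rw [← hl]
    rfl
  have hpe : (p : O) = ε * l ^ (p - 1) := by
    apply Subtype.ext
    push_cast
    rw [hε, hl, div_mul_cancel₀]
    exact pow_ne_zero _ hl0
  have hlp : l ^ (p - 1) * l = l ^ p := by rw [← pow_succ, Nat.sub_add_cancel hp.one_le]
  have hres : (1 + C l * X) ^ p = 1 + C (l ^ p) * (X ^ p + C ε * X * (1 + C l * X * r)) := by
    have e1 : ((p : ℕ) : O[X]) = C (p : O) := by rw [map_natCast]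
    have e2 : ((p : ℕ) : O[X]) * (C l * X) = C (l ^ p) * (C ε * X) := by
      rw [e1, hpe, ← hlp, C_mul, C_mul]
      ring
    rw [hr, mul_pow, ← C_pow, e2]
    ring
  have hlr : IsLocalRing.residue O l = 0 := by
    rw [residue_eq_zero_iff, hl]
    exact hlt
  refine ⟨l, ε, r, hl, hlr, hlO, ?_, hres⟩
  have h1 := congrArg (eval (-1)) hres
  simp only [eval_pow, eval_add, eval_mul, eval_one, eval_C, eval_X] at h1
  have h2 : (1 + l * -1) ^ p = (1 : O) := by
    apply Subtype.ext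
    push_cast
    rw [hl]
    have : (1 + (1 - (ζ : E)) * -1) = ζ := by ring
    rw [this, ← Units.val_pow_eq_pow_val, hζ.pow_eq_one, Units.val_one]
  rw [h2] at h1
  have h3 : l ^ p * ((-1) ^ p + ε * -1 * (1 + l * -1 * eval (-1) r)) = 0 := by
    linear_combination -h1
  rcases mul_eq_zero.1 h3 with h4 | h4
  · exact absurd h4 (pow_ne_zero _ hlO)
  · have h5 := congrArg (IsLocalRing.residue O) h4
    simp only [map_add, map_mul, map_pow, map_neg, map_one, hlr, map_zero, zero_mul, add_zero,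
      mul_one] at h5
    rw [neg_one_pow_char (IsLocalRing.ResidueField O) p] at h5
    linear_combination -h5

include hp in
/-- the reduction of the polynomial of the unramified extension -/
lemma poly_monic {l ε : O} {r : O[X]} (hl : l ≠ 0)
    (h : (1 + C l * X) ^ p = 1 + C (l ^ p) * (X ^ p + C ε * X * (1 + C l * X * r))) (z : O) :
    (X ^ p + C ε * X * (1 + C l * X * r) - C z).Monic ∧
      (X ^ p + C ε * X * (1 + C l * X * r) - C z).natDegree = p := by
  have hlp : l ^ p ≠ 0 := pow_ne_zero _ hl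
  have h1 : C (l ^ p) * (X ^ p + C ε * X * (1 + C l * X * r) - C z) =
      (C l * X + C 1) ^ p - C (1 + l ^ p * z) := by
    rw [mul_sub, add_comm (C l * X), C_1, h, C_add, C_mul, C_1]
    ring
  have h2 : ((C l * X + C 1) ^ p : O[X]).natDegree = p := by
    rw [natDegree_pow, natDegree_linear hl, mul_one]
  have h3 : (X ^ p + C ε * X * (1 + C l * X * r) - C z).natDegree = p := by
    rw [← natDegree_C_mul hlp, h1, natDegree_sub_C, h2]
  refine ⟨?_, h3⟩
  rw [Monic.def, leadingCoeff, h3]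
  have h4 : (C (l ^ p) * (X ^ p + C ε * X * (1 + C l * X * r) - C z)).coeff p =
      ((C l * X + C 1) ^ p - C (1 + l ^ p * z)).coeff p := by rw [h1]
  rw [coeff_C_mul, coeff_sub (_ ^ p), coeff_C_of_ne_zero hp.ne_zero, sub_zero] at h4
  have h5 : ((C l * X + C 1) ^ p : O[X]).coeff p = l ^ p := by
    have h6 : ((C l * X + C 1) ^ p : O[X]).leadingCoeff = l ^ p := by
      rw [leadingCoeff_pow, leadingCoeff_linear hl]
    rwa [leadingCoeff, h2] at h6
  rw [h5] at h4
  exact mul_left_cancel₀ hlp (h4.trans (mul_one _).symm)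

lemma poly_map {l ε : O} {r : O[X]} (hlr : IsLocalRing.residue O l = 0)
    (hε : IsLocalRing.residue O ε = -1) (z : O) :
    (X ^ p + C ε * X * (1 + C l * X * r) - C z).map (IsLocalRing.residue O) =
      X ^ p - X - C (IsLocalRing.residue O z) := by
  simp only [Polynomial.map_sub, Polynomial.map_add, Polynomial.map_mul, Polynomial.map_pow, map_X,
    map_C, hlr, hε, Polynomial.map_one]
  simp
  ring

include hp hζ hpO in
/-- roots of elements close to one -/
lemma root_close {θ w : E} (h : θ ^ p = 1 + w) (hw : O.valuation w ≤ O.valuation (1 - (ζ : E)) ^ p) :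
    O.valuation (θ - 1) ≤ O.valuation (1 - (ζ : E)) := by
  have hlt := val_lam' hp hζ O hpO
  have hw1 : O.valuation w < 1 := hw.trans_lt (pow_lt_one₀ zero_le hlt hp.ne_zero)
  have h1 : O.valuation θ = 1 := by
    have h2 : O.valuation θ ^ p = 1 := by rw [← map_pow, h, Valuation.map_one_add_of_lt _ hw1]
    exact (pow_eq_one_iff_of_nonneg zero_le hp.ne_zero).1 h2
  have h2 : O.valuation (θ - 1) ≤ 1 := by
    rw [sub_eq_add_neg]
    exact Valuation.map_add_le _ h1.le (by rw [Valuation.map_neg, map_one])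
  by_contra hcon
  rw [not_le] at hcon
  obtain ⟨r, hr, he⟩ := expand_val hp O h2
  rw [add_sub_cancel] at he
  have h3 : O.valuation ((p : E) * (θ - 1) * (1 + (θ - 1) * r)) < O.valuation ((θ - 1) ^ p) := by
    rw [map_mul, map_mul, map_pow, val_p hp hζ O]
    have h4 : O.valuation (1 + (θ - 1) * r) ≤ 1 := by
      refine Valuation.map_add_le _ (by rw [map_one]) ?_
      rw [map_mul]
      exact mul_le_one₀ h2 zero_le hr
    refine (mul_le_of_le_one_right zero_le h4).trans_lt ?_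
    have h5 : O.valuation (θ - 1) ^ p = O.valuation (θ - 1) ^ (p - 1) * O.valuation (θ - 1) := by
      rw [← pow_succ, Nat.sub_add_cancel hp.one_le]
    rw [h5]
    have h0 : 0 < O.valuation (θ - 1) := lt_of_le_of_lt zero_le hcon
    refine mul_lt_mul_of_pos_right ?_ h0
    refine pow_lt_pow_left₀ hcon zero_le ?_
    have := hp.one_lt
    omega
  have h4 : w = (θ - 1) ^ p + (p : E) * (θ - 1) * (1 + (θ - 1) * r) := by
    linear_combination -h + he
  rw [h4, Valuation.map_add_eq_of_lt_left _ h3, map_pow] at hw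
  exact absurd (pow_lt_pow_left₀ hcon zero_le hp.ne_zero) (not_lt.2 hw)

include hp hζ hpO in
/-- there are unramified extensions -/
lemma exists_omega [Finite (IsLocalRing.ResidueField O)] : ∃ z : E, O.valuation z ≤ 1 ∧
    ∀ θ : E, θ ^ p ≠ 1 + (1 - (ζ : E)) ^ p * z := by
  have _ : Fact p.Prime := ⟨hp⟩
  have _ := charP_res O hp hpO
  have hl0 := lam_ne hp hζ
  have hlt := val_lam' hp hζ O hpO
  obtain ⟨l, ε, r, hl, hlr, hlO, hε, hpoly⟩ := exists_poly hp hζ O hpO
  -- the Artin-Schreier map is not surjective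
  have h1 : ¬ Function.Surjective fun y : IsLocalRing.ResidueField O => y ^ p - y := by
    rw [← Finite.injective_iff_surjective]
    intro hinj
    have h2 := @hinj 0 1 (by simp [hp.ne_zero])
    exact zero_ne_one h2
  simp only [Function.Surjective, not_forall, not_exists] at h1
  obtain ⟨z₀, hz₀⟩ := h1
  obtain ⟨z, hzO, rfl⟩ := lift_res O z₀
  refine ⟨z, (O.valuation_le_one_iff _).2 hzO, fun θ hθ => ?_⟩
  have h3 := root_close hp hζ O hpO hθ (by
    rw [map_mul, map_pow]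
    exact mul_le_of_le_one_right zero_le ((O.valuation_le_one_iff _).2 hzO))
  have hv0 : 0 < O.valuation (1 - (ζ : E)) := zero_lt_iff.2 ((Valuation.ne_zero_iff _).2 hl0)
  obtain ⟨y, hy⟩ : ∃ y : O, θ = 1 + (1 - (ζ : E)) * y := by
    refine ⟨⟨(θ - 1) / (1 - ζ), ?_⟩, ?_⟩
    · rw [← O.valuation_le_one_iff, map_div₀]
      exact (div_le_one₀ hv0).2 h3
    · change θ = 1 + (1 - (ζ : E)) * ((θ - 1) / (1 - ζ))
      rw [mul_div_cancel₀ _ hl0]
      ring
  have h4 := congrArg (eval y) hpoly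
  simp only [eval_pow, eval_add, eval_mul, eval_one, eval_C, eval_X] at h4
  have h5 : (⟨z, hzO⟩ : O) = y ^ p + ε * y * (1 + l * y * eval y r) := by
    have h6 : l ^ p * (⟨z, hzO⟩ : O) = l ^ p * (y ^ p + ε * y * (1 + l * y * eval y r)) := by
      have h7 : (1 + l * y) ^ p = 1 + l ^ p * (⟨z, hzO⟩ : O) := by
        apply Subtype.ext
        push_cast
        rw [hl, ← hy, hθ]
      rw [h4] at h7
      exact (add_left_cancel h7).symm
    exact mul_left_cancel₀ (pow_ne_zero _ hlO) h6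
  apply hz₀ (IsLocalRing.residue O y)
  rw [h5]
  simp only [map_add, map_mul, map_pow, map_one, hlr, hε, zero_mul, add_zero, mul_one]
  ring

include hp hζ hpO in
/-- the norms from the unramified extension -/
theorem unr_norm {z : E} (hz : O.valuation z ≤ 1)
    (hD : ∀ x : E, O.valuation (x - 1) < O.valuation (1 - (ζ : E)) ^ p → ∃ y : E, y ^ p = x)
    (ht : ∀ θ : E, θ ^ p ≠ 1 + (1 - (ζ : E)) ^ p * z)
    (y : AdjoinRoot (X ^ p - C (1 + (1 - (ζ : E)) ^ p * z))) (hy : y ≠ 0) :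
    ∃ c : E, c ≠ 0 ∧ O.valuation (Algebra.norm E y) = O.valuation c ^ p := by
  have _ : Fact p.Prime := ⟨hp⟩
  have _ := charP_res O hp hpO
  have hl0 := lam_ne hp hζ
  have hlt := val_lam' hp hζ O hpO
  obtain ⟨l, ε, r, hl, hlr, hlO, hε, hpoly⟩ := exists_poly hp hζ O hpO
  have hzO : z ∈ O := (O.valuation_le_one_iff _).1 hz
  obtain ⟨h, hh⟩ : ∃ h : O[X], h = X ^ p + C ε * X * (1 + C l * X * r) - C ⟨z, hzO⟩ := ⟨_, rfl⟩
  obtain ⟨hm, hd⟩ := poly_monic hp O hlO hpoly ⟨z, hzO⟩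
  rw [← hh] at hm hd
  have hmap : h.map (IsLocalRing.residue O) = X ^ p - X - C (IsLocalRing.residue O ⟨z, hzO⟩) := by
    rw [hh]
    exact poly_map O hlr hε _
  have hirr : Irreducible (h.map (IsLocalRing.residue O)) := by
    rw [hmap]
    apply as_irr
    intro y₀ hy₀
    obtain ⟨y, hyO, rfl⟩ := lift_res O y₀
    -- then there is a root
    have h4 := congrArg (eval (⟨y, hyO⟩ : O)) hpoly
    simp only [eval_pow, eval_add, eval_mul, eval_one, eval_C, eval_X] at h4
    obtain ⟨s, hs⟩ : ∃ s : O, s = (⟨y, hyO⟩ : O) ^ p + ε * ⟨y, hyO⟩ * (1 + l * ⟨y, hyO⟩ *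
      eval ⟨y, hyO⟩ r) := ⟨_, rfl⟩
    rw [← hs] at h4
    have h5 : O.valuation (((⟨z, hzO⟩ - s : O)) : E) < 1 := by
      rw [← residue_eq_zero_iff, map_sub, hs, ← hy₀]
      simp only [map_add, map_mul, map_pow, map_one, hlr, hε, zero_mul, add_zero, mul_one]
      ring
    have h6 : (1 + (1 - (ζ : E)) * y) ^ p = 1 + (1 - (ζ : E)) ^ p * s := by
      have := congrArg Subtype.val h4
      push_cast at this
      rwa [hl] at this
    have hly : O.valuation ((1 - (ζ : E)) * y) < 1 := by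
      rw [map_mul]
      exact mul_lt_one_of_nonneg_of_lt_one_left zero_le hlt ((O.valuation_le_one_iff _).2 hyO)
    obtain ⟨f, hf, hf1⟩ := exists_unit_one_add O hly
    have hf0 : (f : E) ≠ 0 := f.ne_zero
    rw [← hf] at h6
    obtain ⟨g, hg⟩ := hD ((1 + (1 - (ζ : E)) ^ p * z) / (f : E) ^ p) (by
      have h7 : (1 + (1 - (ζ : E)) ^ p * z) / (f : E) ^ p - 1 =
          (1 - (ζ : E)) ^ p * (z - s) / (f : E) ^ p := by
        rw [div_sub_one (pow_ne_zero _ hf0)]
        congr 1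
        rw [h6]
        ring
      rw [h7, map_div₀, map_pow, hf1, one_pow, div_one, map_mul, map_pow]
      refine mul_lt_of_lt_one_right (pow_pos (zero_lt_iff.2 ((Valuation.ne_zero_iff _).2 hl0)) _) ?_
      exact h5)
    apply ht (f * g)
    rw [mul_pow, hg, mul_div_cancel₀ _ (pow_ne_zero _ hf0)]
  -- the two presentations
  have hpE : (1 + C (1 - (ζ : E)) * X) ^ p - C (1 + (1 - (ζ : E)) ^ p * z) =
      C ((1 - (ζ : E)) ^ p) * h.map (algebraMap O E) := by
    have h1 := congrArg (Polynomial.map (algebraMap O E)) hpoly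
    have h2 : (algebraMap O E) l = 1 - (ζ : E) := hl
    have h3 : (algebraMap O E) ⟨z, hzO⟩ = z := rfl
    rw [hh]
    simp only [Polynomial.map_sub, Polynomial.map_add, Polynomial.map_mul, Polynomial.map_pow,
      map_X, map_C, Polynomial.map_one, map_pow, h2, h3] at h1 ⊢
    rw [h1, C_add, C_mul, C_1, C_pow]
    ring
  have hcomp : (X ^ p - C (1 + (1 - (ζ : E)) ^ p * z)).comp (1 + C (1 - (ζ : E)) * X) =
      C ((1 - (ζ : E)) ^ p) * h.map (algebraMap O E) := by
    rw [← hpE, sub_comp, pow_comp, X_comp, C_comp]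
  obtain ⟨e⟩ := exists_equiv hl0 (pow_ne_zero p hl0) hcomp
  obtain ⟨c, hc, hc1⟩ := unr O hm hirr (e y) (by rwa [Ne, EmbeddingLike.map_eq_zero_iff])
  rw [hd, Algebra.norm_eq_of_algEquiv] at hc1
  exact ⟨c, hc, hc1⟩

end

end Pool.Agent.Helper48.ETC
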