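import Mathlib
import Pool.Agent.Helper48.ETC.UnrP

set_option autoImplicit false

/-! LOC2: at a `p`-adic place there is no orthogonal decomposition. -/

namespace Pool.Agent.Helper48.ETC

open Pool.Agent.Helper58.EB Pool.Agent.Helper58.ET

/-- `p`-adic data of a valuation ring `O` with uniformizer `ϖ`: the group `1 + D` consists of `p`-th
powers -/
structure Wl {E : Type} [Field E] (p : ℕ) (ζ : Eˣ) (O : ValuationSubring E) (ϖ : Eˣ) : Prop where
  pv : O.valuation (p : E) < 1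
  fin : Finite (IsLocalRing.ResidueField O)
  lt : O.valuation (ϖ : E) < 1
  mx : ∀ x : E, O.valuation x < 1 → O.valuation x ≤ O.valuation (ϖ : E)
  pw : ∃ e : ℕ, O.valuation (ϖ : E) ^ e ≤ O.valuation (p : E)
  vl : ∀ x : Eˣ, ∃ (f : Eˣ) (n : ℕ), O.valuation (x : E) =
    O.valuation (f : E) ^ p * O.valuation (ϖ : E) ^ n
  hD : ∀ x : E, O.valuation (x - 1) < O.valuation (1 - (ζ : E)) ^ p → ∃ y : E, y ^ p = x

/-- a symmetric system of orthogonal groups -/
structure Nsy {E : Type} [Field E] (p : ℕ) (ζ : Eˣ) (O : ValuationSubring E)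
    (N : Eˣ → Subgroup Eˣ) : Prop where
  symm : ∀ a b : Eˣ, b ∈ N a → a ∈ N b
  pow : ∀ a c : Eˣ, c ^ p ∈ N a
  sum : ∀ u v : Eˣ, (u : E) + v = 1 → v ∈ N u
  unr : ∀ t : Eˣ, O.valuation ((t : E) - 1) ≤ O.valuation (1 - (ζ : E)) ^ p →
    (∀ c : Eˣ, c ^ p ≠ t) → ∀ z ∈ N t, ∃ c : Eˣ, O.valuation (z : E) = O.valuation (c : E) ^ p

section

variable {E : Type} [Field E] {p : ℕ} (hp : p.Prime) {ζ : Eˣ} (hζ : IsPrimitiveRoot ζ p)
  {O : ValuationSubring E} {ϖ : Eˣ} (W : Wl p ζ O ϖ)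

include hp in
lemma Wl.not_pow (W : Wl p ζ O ϖ) (c : Eˣ) : O.valuation (ϖ : E) ≠ O.valuation (c : E) ^ p := by
  intro h
  have h1 : O.valuation (c : E) < 1 := by
    rw [← pow_lt_one_iff_of_nonneg zero_le hp.ne_zero, ← h]
    exact W.lt
  have h2 := pow_le_pow_left₀ zero_le (W.mx _ h1) p
  rw [← h] at h2
  have h3 : O.valuation (ϖ : E) ^ p < O.valuation (ϖ : E) := by
    conv_rhs => rw [← pow_one (O.valuation (ϖ : E))]
    exact pow_lt_pow_right_of_lt_one₀ (val_pos O ϖ) W.lt hp.one_lt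
  exact absurd h3 (not_lt.2 h2)

include hp in
/-- the binomial formula for `1 + y` with `|λ| < |y| < 1` -/
lemma pow_expand {y : E} (hy : O.valuation y < 1) : ∃ q : E,
    O.valuation q ≤ O.valuation (p : E) * O.valuation y ∧ (1 + y) ^ p = 1 + y ^ p + q := by
  obtain ⟨r, hr, he⟩ := expand_val hp O hy.le
  refine ⟨p * y * (1 + y * r), ?_, he⟩
  rw [map_mul, map_mul]
  refine mul_le_of_le_one_right zero_le ?_
  refine Valuation.map_add_le _ (by rw [map_one]) ?_
  rw [map_mul]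
  exact mul_le_one₀ hy.le zero_le hr

include hp hζ in
/-- the filtration of the one-units -/
lemma Wl.filt (W : Wl p ζ O ϖ) {u : Eˣ} (hu : O.valuation (u : E) = 1) :
    ∃ (f : Eˣ) (x : E), O.valuation x < 1 ∧ (u : E) = (f : E) ^ p * (1 + x) ∧
      (O.valuation x ≤ O.valuation (1 - (ζ : E)) ^ p ∨
        O.valuation (1 - (ζ : E)) ^ p < O.valuation x ∧
          ∀ c : Eˣ, O.valuation x ≠ O.valuation (c : E) ^ p) := by
  have _ := W.fin
  have hl0 := lam_ne hp hζ
  have hlt := val_lam' hp hζ O W.pv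
  have hlv : 0 < O.valuation (1 - (ζ : E)) := zero_lt_iff.2 ((Valuation.ne_zero_iff _).2 hl0)
  -- the induction
  have key : ∀ n : ℕ, ∃ (f : Eˣ) (x : E), O.valuation x < 1 ∧ (u : E) = (f : E) ^ p * (1 + x) ∧
      (O.valuation x ≤ O.valuation (ϖ : E) ^ n ∨
        (O.valuation x ≤ O.valuation (1 - (ζ : E)) ^ p ∨
        O.valuation (1 - (ζ : E)) ^ p < O.valuation x ∧
          ∀ c : Eˣ, O.valuation x ≠ O.valuation (c : E) ^ p)) := by
    intro n
    induction n with
    | zero =>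
      obtain ⟨b, hb, hb1⟩ := pf_of_finite O hp W.pv hu.le
      have hbv : O.valuation b = 1 := by
        have h1 : O.valuation (b ^ p) = 1 := by
          have e : b ^ p = u - (u - b ^ p) := by ring
          rw [e, Valuation.map_sub_eq_of_lt_left _ (by rw [hu]; exact hb1), hu]
        rw [map_pow] at h1
        exact (pow_eq_one_iff_of_nonneg zero_le hp.ne_zero).1 h1
      have hb0 : b ≠ 0 := by
        rintro rfl
        rw [map_zero] at hbv
        exact zero_ne_one hbv
      refine ⟨Units.mk0 b hb0, ((u : E) - b ^ p) / b ^ p, ?_, ?_, Or.inl ?_⟩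
      · rw [map_div₀, map_pow, hbv, one_pow, div_one]
        exact hb1
      · rw [Units.val_mk0]
        field_simp
        ring
      · rw [map_div₀, map_pow, hbv, one_pow, div_one, pow_zero]
        exact hb1.le
    | succ n ih =>
      obtain ⟨f, x, hx, hux, h | h⟩ := ih
      swap
      · exact ⟨f, x, hx, hux, Or.inr h⟩
      by_cases h1 : O.valuation x ≤ O.valuation (1 - (ζ : E)) ^ p
      · exact ⟨f, x, hx, hux, Or.inr (Or.inl h1)⟩
      rw [not_le] at h1
      by_cases h2 : ∀ c : Eˣ, O.valuation x ≠ O.valuation (c : E) ^ p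
      · exact ⟨f, x, hx, hux, Or.inr (Or.inr ⟨h1, h2⟩)⟩
      push Not at h2
      obtain ⟨c, hc⟩ := h2
      have hcp : 0 < O.valuation (c : E) ^ p := pow_pos (val_pos O c) p
      have hc1 : O.valuation (c : E) < 1 := by
        rw [← pow_lt_one_iff_of_nonneg zero_le hp.ne_zero, ← hc]
        exact hx
      have hlc : O.valuation (1 - (ζ : E)) < O.valuation (c : E) := by
        rw [hc] at h1
        exact lt_of_pow_lt_pow_left₀ p zero_le h1
      have hw1 : O.valuation (x / (c : E) ^ p) = 1 := by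
        rw [map_div₀, map_pow, hc, div_self hcp.ne']
      obtain ⟨b, hb, hb1⟩ := pf_of_finite O hp W.pv hw1.le
      have hcb : O.valuation ((c : E) * b) < 1 := by
        rw [map_mul]
        exact mul_lt_one_of_nonneg_of_lt_one_left zero_le hc1 hb
      obtain ⟨q, hq, he⟩ := pow_expand hp hcb
      obtain ⟨g, hg, hg1⟩ := exists_unit_one_add O hcb
      have hg0 : (g : E) ≠ 0 := g.ne_zero
      have hc0 : (c : E) ≠ 0 := c.ne_zero
      have hnum : O.valuation (x - ((c : E) * b) ^ p - q) < O.valuation x := by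
        have h3 : x - ((c : E) * b) ^ p = (c : E) ^ p * (x / (c : E) ^ p - b ^ p) := by
          rw [mul_sub, mul_div_cancel₀ _ (pow_ne_zero _ hc0), mul_pow]
        rw [sub_eq_add_neg]
        refine Valuation.map_add_lt _ ?_ ?_
        · rw [h3, map_mul, map_pow, hc]
          exact mul_lt_of_lt_one_right hcp hb1
        · rw [Valuation.map_neg]
          refine hq.trans_lt ?_
          rw [map_mul, val_p hp hζ O, hc]
          refine lt_of_le_of_lt (b := O.valuation (1 - (ζ : E)) ^ (p - 1) * O.valuation (c : E)) ?_ ?_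
          · refine mul_le_mul_right ?_ _
            exact mul_le_of_le_one_right zero_le hb
          · have h4 : O.valuation (c : E) ^ p = O.valuation (c : E) ^ (p - 1) * O.valuation (c : E) := by
              rw [← pow_succ, Nat.sub_add_cancel hp.one_le]
            rw [h4]
            refine mul_lt_mul_of_pos_right ?_ (val_pos O c)
            refine pow_lt_pow_left₀ hlc zero_le ?_
            have := hp.one_lt
            omega
      have hnew : O.valuation ((x - ((c : E) * b) ^ p - q) / (g : E) ^ p) < O.valuation x := by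
        rw [map_div₀, map_pow, hg1, one_pow, div_one]
        exact hnum
      refine ⟨f * g, (x - ((c : E) * b) ^ p - q) / (g : E) ^ p, hnew.trans hx, ?_, Or.inl ?_⟩
      · rw [Units.val_mul, mul_pow, mul_assoc, hux]
        congr 1
        rw [mul_add, mul_one, mul_div_cancel₀ _ (pow_ne_zero _ hg0), hg, he]
        ring
      · rw [pow_succ]
        have hx0 : O.valuation x ≠ 0 := (lt_of_le_of_lt zero_le h1).ne'
        have hx0' : x ≠ 0 := (Valuation.ne_zero_iff _).1 hx0
        have h5 := W.mx ((x - ((c : E) * b) ^ p - q) / (g : E) ^ p / x) (by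
          rw [map_div₀]
          exact (div_lt_one₀ (zero_lt_iff.2 hx0)).2 hnew)
        rw [map_div₀, div_le_iff₀ (zero_lt_iff.2 hx0)] at h5
        refine h5.trans ?_
        rw [mul_comm]
        exact mul_le_mul_left h _
  obtain ⟨e, he⟩ := W.pw
  have h1 : O.valuation (ϖ : E) ^ (2 * e) ≤ O.valuation (1 - (ζ : E)) ^ p := by
    rw [mul_comm, pow_mul]
    refine (pow_le_pow_left₀ zero_le he 2).trans ?_
    rw [val_p hp hζ O, ← pow_mul]
    refine pow_le_pow_right_of_le_one' hlt.le ?_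
    have := hp.two_le
    omega
  obtain ⟨f, x, hx, hux, h | h⟩ := key (2 * e)
  · exact ⟨f, x, hx, hux, Or.inl (h.trans h1)⟩
  · exact ⟨f, x, hx, hux, h⟩

/-- the identity `(1 + x) ω - x (1 + w) = 1` -/
lemma ident' {l z x : E} (hx : O.valuation (l * z) < O.valuation x) (hx1 : O.valuation x < 1)
    {ω : Eˣ} (hω : (ω : E) = 1 + l * z) : ∃ s V : Eˣ, (s : E) = 1 + x ∧
      ((s * ω : Eˣ) : E) + V = 1 ∧ O.valuation (V : E) = O.valuation x := by
  obtain ⟨s, hs, hs1⟩ := exists_unit_one_add O hx1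
  have hx0 : 0 < O.valuation x := lt_of_le_of_lt zero_le hx
  have hx0' : x ≠ 0 := (Valuation.ne_zero_iff _).1 hx0.ne'
  have hw : O.valuation ((1 + x) * (l * z) / x) < 1 := by
    rw [map_div₀, map_mul, ← hs, hs1, one_mul]
    exact (div_lt_one₀ hx0).2 hx
  obtain ⟨g, hg, hg1⟩ := exists_unit_one_add O hw
  refine ⟨s, -(Units.mk0 x hx0' * g), hs, ?_, ?_⟩
  · rw [Units.val_neg, Units.val_mul, Units.val_mul, Units.val_mk0, hs, hω, hg]
    field_simp
    ring
  · rw [Units.val_neg, Valuation.map_neg, Units.val_mul, Units.val_mk0, map_mul, hg1, mul_one]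

include hp hζ in
/-- there is an unramified class -/
lemma Wl.exists_omega (W : Wl p ζ O ϖ) : ∃ (ω : Eˣ) (z : E), O.valuation z ≤ 1 ∧
    (ω : E) = 1 + (1 - (ζ : E)) ^ p * z ∧ ∀ c : Eˣ, c ^ p ≠ ω := by
  have _ := W.fin
  have hlt := val_lam' hp hζ O W.pv
  obtain ⟨z, hz, h⟩ := Pool.Agent.Helper48.ETC.exists_omega hp hζ O W.pv
  obtain ⟨ω, hω, _⟩ := exists_unit_one_add O (x := (1 - (ζ : E)) ^ p * z) (by
    rw [map_mul, map_pow]
    exact mul_lt_one_of_nonneg_of_lt_one_left zero_le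
      (pow_lt_one₀ zero_le hlt hp.ne_zero) hz)
  refine ⟨ω, z, hz, hω, fun c hc => h c ?_⟩
  rw [← hω, ← hc, Units.val_pow_eq_pow_val]

variable {N : Eˣ → Subgroup Eˣ}

include hp hζ in
/-- only the `p`-th powers are orthogonal to everything -/
lemma Wl.rad (W : Wl p ζ O ϖ) (hN : Nsy p ζ O N) {r : Eˣ} (hr : ∀ b : Eˣ, b ∈ N r) :
    ∃ c : Eˣ, c ^ p = r := by
  obtain ⟨ω, z, hz, hω, hωp⟩ := W.exists_omega hp hζ
  have hωv : O.valuation ((ω : E) - 1) ≤ O.valuation (1 - (ζ : E)) ^ p := by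
    rw [hω, add_sub_cancel_left, map_mul, map_pow]
    exact mul_le_of_le_one_right zero_le hz
  obtain ⟨c, hc⟩ := hN.unr ω hωv hωp r (hN.symm _ _ (hr ω))
  have hu1 : O.valuation ((r / c ^ p : Eˣ) : E) = 1 := by
    rw [Units.val_div_eq_div_val, map_div₀, Units.val_pow_eq_pow_val, map_pow, hc, div_self]
    exact pow_ne_zero _ (val_ne O c)
  obtain ⟨f, x, hx, hux, h⟩ := W.filt hp hζ hu1
  obtain ⟨s, hs, _⟩ := exists_unit_one_add O hx
  have hrs : r = (c * f) ^ p * s := by
    have h1 : r / c ^ p = f ^ p * s := by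
      ext
      rw [hux, Units.val_mul, Units.val_pow_eq_pow_val, hs]
    rw [div_eq_iff_eq_mul] at h1
    rw [h1, mul_pow, mul_comm (c ^ p), mul_right_comm]
  have hsN : ∀ b : Eˣ, s ∈ N b := by
    intro b
    have h1 := hN.symm _ _ (hr b)
    rw [hrs] at h1
    have h2 := mul_mem (inv_mem (hN.pow b (c * f))) h1
    rwa [inv_mul_cancel_left] at h2
  suffices h1 : ∃ g : Eˣ, g ^ p = s by
    obtain ⟨g, rfl⟩ := h1
    exact ⟨c * f * g, by rw [hrs, mul_pow]⟩
  rcases h with h | ⟨h1, h2⟩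
  · by_contra hcon
    push Not at hcon
    obtain ⟨d, hd⟩ := hN.unr s (by rw [hs, add_sub_cancel_left]; exact h) hcon ϖ
      (hN.symm _ _ (hsN ϖ))
    exact W.not_pow hp d hd
  · exfalso
    obtain ⟨s', V, hs', hV, hVv⟩ := ident' (O := O) (x := x) (l := (1 - (ζ : E)) ^ p) (z := z) (by
      refine lt_of_le_of_lt ?_ h1
      rw [map_mul, map_pow]
      exact mul_le_of_le_one_right zero_le hz) hx hω
    have hss : s' = s := by
      ext
      rw [hs, hs']
    rw [hss] at hV
    have h3 : s * ω ∈ N V := hN.symm _ _ (hN.sum _ _ hV)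
    have h4 : ω ∈ N V := by
      have := mul_mem (inv_mem (hsN V)) h3
      rwa [inv_mul_cancel_left] at this
    obtain ⟨d, hd⟩ := hN.unr ω hωv hωp V (hN.symm _ _ h4)
    rw [hVv] at hd
    exact h2 d hd

include hp hζ in
/-- **LOC2.** There is no orthogonal decomposition at a `p`-adic place. -/
theorem Wl.loc2 (W : Wl p ζ O ϖ) (hN : Nsy p ζ O N) {X T : Subgroup Eˣ}
    (hTp : ∀ c : Eˣ, c ^ p ∈ T) (htop : X ⊔ T = ⊤)
    (orth : ∀ x ∈ X, ∀ t ∈ T, t ∈ N x)
    (pr : ∀ u v : Eˣ, (u : E) + v = 1 → ∀ x ∈ X, ∀ t ∈ T, ∀ x' ∈ X, ∀ t' ∈ T,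
      u = x * t → v = x' * t' → x' ∈ N x)
    (hX : ∃ x ∈ X, ∀ c : Eˣ, c ^ p ≠ x) : ∀ t ∈ T, ∃ c : Eˣ, c ^ p = t := by
  classical
  obtain ⟨ω, z, hz, hω, hωp⟩ := W.exists_omega hp hζ
  have hlt := val_lam' hp hζ O W.pv
  have hωv : O.valuation ((ω : E) - 1) ≤ O.valuation (1 - (ζ : E)) ^ p := by
    rw [hω, add_sub_cancel_left, map_mul, map_pow]
    exact mul_le_of_le_one_right zero_le hz
  have hlz : O.valuation ((1 - (ζ : E)) ^ p * z) ≤ O.valuation (1 - (ζ : E)) ^ p := by
    rw [map_mul, map_pow]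
    exact mul_le_of_le_one_right zero_le hz
  -- decompositions
  have hdec : ∀ a : Eˣ, ∃ x ∈ X, ∃ t ∈ T, a = x * t := by
    intro a
    have ha : a ∈ X ⊔ T := by rw [htop]; exact Subgroup.mem_top a
    rw [Subgroup.mem_sup] at ha
    obtain ⟨x, hx, t, ht, e⟩ := ha
    exact ⟨x, hx, t, ht, e.symm⟩
  -- elements orthogonal to `X` and `T`
  have hrad : ∀ r : Eˣ, (∀ x ∈ X, x ∈ N r) → (∀ t ∈ T, t ∈ N r) → ∃ c : Eˣ, c ^ p = r := by
    intro r h1 h2
    apply W.rad hp hζ hN
    intro b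
    obtain ⟨x, hx, t, ht, rfl⟩ := hdec b
    exact mul_mem (h1 x hx) (h2 t ht)
  have hXT : ∀ r ∈ X, r ∈ T → ∃ c : Eˣ, c ^ p = r := by
    intro r hr hr'
    exact hrad r (fun x hx => hN.symm _ _ (orth x hx r hr')) (fun t ht => orth r hr t ht)
  have hTtop : T ≠ ⊤ := by
    rintro rfl
    obtain ⟨x, hx, hxp⟩ := hX
    obtain ⟨c, hc⟩ := hXT x hx (Subgroup.mem_top x)
    exact hxp c hc
  -- small elements are in `T`
  have hsmall : ∀ s : Eˣ, O.valuation ((s : E) - 1) < O.valuation (1 - (ζ : E)) ^ p → s ∈ T := by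
    intro s hs
    obtain ⟨y, hy⟩ := W.hD s hs
    have hy0 : y ≠ 0 := by
      rintro rfl
      rw [zero_pow hp.ne_zero] at hy
      exact s.ne_zero hy.symm
    have : s = (Units.mk0 y hy0) ^ p := by
      ext
      rw [Units.val_pow_eq_pow_val, Units.val_mk0, hy]
    rw [this]
    exact hTp _
  -- (c) the values of `T`
  have hTv : ∀ t ∈ T, ∃ c : Eˣ, O.valuation (t : E) = O.valuation (c : E) ^ p := by
    by_contra hcon
    push Not at hcon
    obtain ⟨t, ht, htv⟩ := hcon
    -- everything is in `(1 + m) T`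
    have hgen : ∀ a : Eˣ, ∃ s : Eˣ, O.valuation ((s : E) - 1) < 1 ∧ ∃ t' ∈ T, a = s * t' := by
      intro a
      obtain ⟨f, n, hfn⟩ := W.vl t
      have hnp : ¬ p ∣ n := by
        rintro ⟨m, rfl⟩
        apply htv (f * ϖ ^ m)
        rw [hfn, Units.val_mul, Units.val_pow_eq_pow_val, map_mul, map_pow, mul_pow, ← pow_mul,
          mul_comm m p]
      obtain ⟨g, m, hgm⟩ := W.vl a
      -- a power of `t`
      obtain ⟨k, hk⟩ : ∃ k : ℤ, (p : ℤ) ∣ m - k * n := by
        have hco : IsCoprime (p : ℤ) n := by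
          rw [Nat.isCoprime_iff_coprime]
          exact (Nat.Prime.coprime_iff_not_dvd hp).2 hnp
        obtain ⟨α, β, hαβ⟩ := hco
        refine ⟨m * β, ⟨m * α, ?_⟩⟩
        linear_combination (-(m : ℤ)) * hαβ
      obtain ⟨j, hj⟩ := hk
      obtain ⟨h, hh⟩ : ∃ h : Eˣ, h = g * (f ^ k)⁻¹ * ϖ ^ j := ⟨_, rfl⟩
      have hval : O.valuation ((a / (t ^ k * h ^ p) : Eˣ) : E) = 1 := by
        have hf0 := val_ne O f
        have hϖ0 := val_ne O ϖ
        have hg0 := val_ne O g
        rw [Units.val_div_eq_div_val, map_div₀, hgm, hh]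
        simp only [Units.val_mul, Units.val_pow_eq_pow_val, Units.val_zpow_eq_zpow_val,
          Units.val_inv_eq_inv_val, map_mul, map_pow, map_zpow₀, map_inv₀]
        rw [hfn, div_eq_one_iff_eq]
        · rw [mul_zpow, mul_pow, mul_pow, ← zpow_natCast (O.valuation (ϖ : E)) n, ← zpow_mul,
            ← zpow_natCast (O.valuation (f : E)) p, ← zpow_mul, inv_pow,
            ← zpow_natCast (O.valuation (f : E) ^ k) p, ← zpow_mul,
            ← zpow_natCast (O.valuation (ϖ : E) ^ j) p, ← zpow_mul,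
            ← zpow_natCast (O.valuation (ϖ : E)) m]
          have e1 : (m : ℤ) = n * k + j * p := by linear_combination hj
          rw [e1, zpow_add₀ hϖ0, mul_comm (p : ℤ) k]
          have e2 : O.valuation (f : E) ^ (k * (p : ℤ)) ≠ 0 := zpow_ne_zero _ hf0
          field_simp
        · refine mul_ne_zero (zpow_ne_zero _ (mul_ne_zero (pow_ne_zero _ hf0)
            (pow_ne_zero _ hϖ0))) (pow_ne_zero _ (mul_ne_zero (mul_ne_zero hg0
              (inv_ne_zero (zpow_ne_zero _ hf0))) (zpow_ne_zero _ hϖ0)))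
      obtain ⟨f', x, hx, hux, _⟩ := W.filt hp hζ hval
      obtain ⟨s, hs, _⟩ := exists_unit_one_add O hx
      refine ⟨s, by rw [hs, add_sub_cancel_left]; exact hx, t ^ k * h ^ p * f' ^ p,
        mul_mem (mul_mem (Subgroup.zpow_mem _ ht k) (hTp h)) (hTp f'), ?_⟩
      have h1 : a / (t ^ k * h ^ p) = f' ^ p * s := by
        ext
        rw [hux, Units.val_mul, Units.val_pow_eq_pow_val, hs]
      rw [div_eq_iff_eq_mul] at h1
      rw [h1, mul_comm (f' ^ p) s, mul_assoc, mul_comm (f' ^ p)]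
    -- the largest `k` with `1 + ϖ ^ k O` not in `T`
    have hk0 : ∃ n : ℕ, ∀ s : Eˣ, O.valuation ((s : E) - 1) ≤ O.valuation (ϖ : E) ^ (n + 1) →
        s ∈ T := by
      obtain ⟨e, he⟩ := W.pw
      refine ⟨2 * e, fun s hs => hsmall s (hs.trans_lt ?_)⟩
      rw [pow_succ]
      have h2 : O.valuation (ϖ : E) ^ (2 * e) ≤ O.valuation (1 - (ζ : E)) ^ p := by
        rw [mul_comm, pow_mul]
        refine (pow_le_pow_left₀ zero_le he 2).trans ?_
        rw [val_p hp hζ O, ← pow_mul]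
        refine pow_le_pow_right_of_le_one' hlt.le ?_
        have := hp.two_le
        omega
      refine lt_of_lt_of_le ?_ h2
      exact mul_lt_of_lt_one_right (pow_pos (val_pos O ϖ) _) W.lt
    obtain ⟨n, hn, hmin⟩ : ∃ n : ℕ, (∀ s : Eˣ, O.valuation ((s : E) - 1) ≤
        O.valuation (ϖ : E) ^ (n + 1) → s ∈ T) ∧ ∀ m < n, ¬ ∀ s : Eˣ,
          O.valuation ((s : E) - 1) ≤ O.valuation (ϖ : E) ^ (m + 1) → s ∈ T :=
      ⟨Nat.find hk0, Nat.find_spec hk0, fun m hm => Nat.find_min hk0 hm⟩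
    rcases Nat.eq_zero_or_pos n with hn0 | hnpos
    · rw [hn0] at hn
      apply hTtop
      rw [Subgroup.eq_top_iff']
      intro a
      obtain ⟨s, hs, t', ht', rfl⟩ := hgen a
      refine mul_mem (hn s ?_) ht'
      rw [zero_add, pow_one]
      exact W.mx _ hs
    obtain ⟨m, rfl⟩ := Nat.exists_eq_succ_of_ne_zero hnpos.ne'
    have h1 := hmin m (Nat.lt_succ_self m)
    push Not at h1
    obtain ⟨g, hgv, hgT⟩ := h1
    rw [Nat.succ_eq_add_one] at hn
    obtain ⟨x, hx⟩ : ∃ x : E, (g : E) = 1 + x := ⟨(g : E) - 1, by ring⟩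
    rw [hx, add_sub_cancel_left] at hgv
    have hx1 : O.valuation x < 1 := by
      refine hgv.trans_lt ?_
      exact pow_lt_one₀ zero_le W.lt (Nat.succ_ne_zero m)
    have hg1 : O.valuation (g : E) = 1 := by rw [hx]; exact Valuation.map_one_add_of_lt _ hx1
    have hx0 : x ≠ 0 := by
      rintro rfl
      apply hgT
      have : g = 1 := by
        ext
        rw [hx, add_zero, Units.val_one]
      rw [this]
      exact one_mem T
    -- the components
    obtain ⟨gX, hgX, gT, hgT', hgdec⟩ := hdec g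
    have hstep : ∀ u : Eˣ, O.valuation ((u : E) - 1) < 1 → ∀ y ∈ X, ∀ t' ∈ T,
        -(Units.mk0 x hx0) * u = y * t' → y ∈ N gX := by
      intro u hu y hy t' ht' hdec'
      have hxu : O.valuation (x * u) < 1 := by
        have h2 : O.valuation (u : E) = 1 := by
          have e : (u : E) = 1 + ((u : E) - 1) := by ring
          rw [e, Valuation.map_one_add_of_lt _ hu]
        rw [map_mul, h2, mul_one]
        exact hx1
      obtain ⟨a, ha, _⟩ := exists_unit_one_add O hxu
      have hsum : (a : E) + ((-(Units.mk0 x hx0) * u : Eˣ) : E) = 1 := by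
        rw [ha, Units.val_mul, Units.val_neg, Units.val_mk0]
        ring
      have haT : a / g ∈ T := by
        apply hn
        have e : ((a / g : Eˣ) : E) - 1 = x * ((u : E) - 1) / g := by
          rw [Units.val_div_eq_div_val, ha, div_sub_one g.ne_zero, hx]
          congr 1
          ring
        rw [e, map_div₀, hg1, div_one, map_mul, pow_succ]
        exact mul_le_mul' hgv (W.mx _ hu)
      refine pr _ _ hsum gX hgX (gT * (a / g)) (mul_mem hgT' haT) y hy t' ht' ?_ hdec'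
      rw [← mul_assoc, ← hgdec, mul_div_cancel]
    obtain ⟨y₀, hy₀, t₀, ht₀, hdec₀⟩ := hdec (-(Units.mk0 x hx0))
    have hy₀N : y₀ ∈ N gX := hstep 1 (by rw [Units.val_one, sub_self, map_zero]; exact zero_lt_one)
      y₀ hy₀ t₀ ht₀ (by rw [mul_one]; exact hdec₀)
    obtain ⟨c, hc⟩ := hrad gX (fun b hb => by
      obtain ⟨s, hs, t', ht', hbs⟩ := hgen b
      -- `b * t'⁻¹ = s`
      have h2 := hstep s hs (y₀ * b) (mul_mem hy₀ hb) (t₀ * t'⁻¹) (mul_mem ht₀ (inv_mem ht')) (by
        rw [hdec₀, mul_mul_mul_comm, hbs, mul_inv_cancel_right])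
      have h3 := mul_mem (inv_mem hy₀N) h2
      rwa [inv_mul_cancel_left] at h3) (fun t' ht' => orth gX hgX t' ht')
    apply hgT
    rw [hgdec]
    refine mul_mem ?_ hgT'
    rw [← hc]
    exact hTp c
  -- (d)
  intro t ht
  obtain ⟨c, hc⟩ := hTv t ht
  have hu1 : O.valuation ((t / c ^ p : Eˣ) : E) = 1 := by
    rw [Units.val_div_eq_div_val, map_div₀, Units.val_pow_eq_pow_val, map_pow, hc, div_self]
    exact pow_ne_zero _ (val_ne O c)
  obtain ⟨f, x, hx, hux, h⟩ := W.filt hp hζ hu1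
  obtain ⟨s, hs, _⟩ := exists_unit_one_add O hx
  have hrs : t = (c * f) ^ p * s := by
    have h1 : t / c ^ p = f ^ p * s := by
      ext
      rw [hux, Units.val_mul, Units.val_pow_eq_pow_val, hs]
    rw [div_eq_iff_eq_mul] at h1
    rw [h1, mul_pow, mul_comm (c ^ p), mul_right_comm]
  have hsT : s ∈ T := by
    have h1 := mul_mem (inv_mem (hTp (c * f))) ht
    rw [hrs] at h1
    rwa [inv_mul_cancel_left] at h1
  suffices h1 : ∃ g : Eˣ, g ^ p = s by
    obtain ⟨g, rfl⟩ := h1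
    exact ⟨c * f * g, by rw [hrs, mul_pow]⟩
  rcases h with h | ⟨h1, h2⟩
  · by_contra hcon
    push Not at hcon
    -- all values are divisible by `p`
    obtain ⟨y, hy, t', ht', hyt⟩ := hdec ϖ
    obtain ⟨d, hd⟩ := hN.unr s (by rw [hs, add_sub_cancel_left]; exact h) hcon y
      (hN.symm _ _ (orth y hy s hsT))
    obtain ⟨d', hd'⟩ := hTv t' ht'
    apply W.not_pow hp (d * d')
    rw [hyt, Units.val_mul, map_mul, hd, hd', Units.val_mul, map_mul, mul_pow]
  · exfalso
    obtain ⟨s', V, hs', hV, hVv⟩ := ident' (O := O) (x := x) (l := (1 - (ζ : E)) ^ p) (z := z)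
      (lt_of_le_of_lt hlz h1) hx hω
    have hss : s' = s := by
      ext
      rw [hs, hs']
    rw [hss] at hV
    obtain ⟨ωX, hωX, ωT, hωT, hωdec⟩ := hdec ω
    obtain ⟨VX, hVX, VT, hVT, hVdec⟩ := hdec V
    have h3 : VX ∈ N ωX := pr _ _ hV ωX hωX (s * ωT) (mul_mem hsT hωT) VX hVX VT hVT
      (by rw [hωdec, mul_left_comm]) hVdec
    have h4 : ω ∈ N VX := by
      rw [hωdec]
      exact mul_mem (hN.symm _ _ h3) (orth VX hVX ωT hωT)
    obtain ⟨d, hd⟩ := hN.unr ω hωv hωp VX (hN.symm _ _ h4)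
    obtain ⟨d', hd'⟩ := hTv VT hVT
    apply h2 (d * d')
    rw [← hVv, hVdec, Units.val_mul, map_mul, hd, hd', Units.val_mul, map_mul, mul_pow]

end

end Pool.Agent.Helper48.ETC
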