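import Mathlib
import Pool.Agent.Helper48.ETC.Loc2

set_option autoImplicit false

/-! LOC2 for norm groups. -/

namespace Pool.Agent.Helper48.ETC

open Polynomial Pool.Agent.Helper58.EB Pool.Agent.Helper58.ET

section

variable {E : Type} [Field E] {p : ℕ}

lemma xpa_monic (hp : p ≠ 0) (a : E) : (X ^ p - C a).Monic := monic_X_pow_sub_C a hp

lemma finrank_xpa (hp : p ≠ 0) (a : E) : Module.finrank E (AdjoinRoot (X ^ p - C a)) = p := by
  rw [(AdjoinRoot.powerBasis' (xpa_monic hp a)).finrank, AdjoinRoot.powerBasis'_dim,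
    natDegree_X_pow_sub_C]

/-- constants -/
lemma norm_const (hp : p ≠ 0) (a c : E) :
    Algebra.norm E (algebraMap E (AdjoinRoot (X ^ p - C a)) c) = c ^ p := by
  rw [Algebra.norm_algebraMap, finrank_xpa hp]

/-- the norm of `c - θ` -/
lemma norm_sub_root (hp : p ≠ 0) (a c : E) :
    Algebra.norm E (algebraMap E (AdjoinRoot (X ^ p - C a)) c - AdjoinRoot.root _) = c ^ p - a := by
  classical
  have hf : (X ^ p - C a : E[X]) ≠ 0 := (xpa_monic hp a).ne_zero
  have h1 := Matrix.eval_charpoly (Algebra.leftMulMatrix (AdjoinRoot.powerBasis hf).basis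
    (AdjoinRoot.powerBasis hf).gen) c
  rw [charpoly_leftMulMatrix, AdjoinRoot.powerBasis_gen, AdjoinRoot.minpoly_root hf,
    (xpa_monic hp a).leadingCoeff, inv_one, C_1, mul_one, eval_sub, eval_pow, eval_X, eval_C] at h1
  rw [Algebra.norm_eq_matrix_det (AdjoinRoot.powerBasis hf).basis, map_sub, h1]
  congr 2
  rw [AlgHom.commutes]
  rfl

/-- the group of norms from `E[X]/(X ^ p - a)` -/
def NG (p : ℕ) (hp : p ≠ 0) (a : Eˣ) : Subgroup Eˣ where
  carrier := {b | ∃ y : AdjoinRoot (X ^ p - C (a : E)), Algebra.norm E y = (b : E)}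
  mul_mem' := by
    rintro b c ⟨y, hy⟩ ⟨z, hz⟩
    exact ⟨y * z, by rw [map_mul, hy, hz, Units.val_mul]⟩
  one_mem' := ⟨1, by rw [map_one, Units.val_one]⟩
  inv_mem' := by
    rintro b ⟨y, hy⟩
    refine ⟨y ^ (p - 1) * algebraMap E _ ((b⁻¹ : Eˣ) : E), ?_⟩
    rw [map_mul, map_pow, norm_const hp, hy, ← Units.val_pow_eq_pow_val, ← Units.val_pow_eq_pow_val,
      ← Units.val_mul]
    congr 1
    have h1 : b ^ p = b ^ (p - 1) * b := by
      rw [← pow_succ, Nat.sub_add_cancel (Nat.one_le_iff_ne_zero.2 hp)]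
    rw [inv_pow, h1, mul_inv, mul_inv_cancel_left]

lemma mem_NG {hp : p ≠ 0} {a b : Eˣ} : b ∈ NG p hp a ↔
    ∃ y : AdjoinRoot (X ^ p - C (a : E)), Algebra.norm E y = (b : E) := Iff.rfl

lemma pow_mem_NG (hp : p ≠ 0) (a c : Eˣ) : c ^ p ∈ NG p hp a :=
  ⟨algebraMap E _ (c : E), by rw [norm_const hp, Units.val_pow_eq_pow_val]⟩

lemma sum_mem_NG (hp : p ≠ 0) {u v : Eˣ} (h : (u : E) + v = 1) : v ∈ NG p hp u :=
  ⟨algebraMap E _ 1 - AdjoinRoot.root _, by
    rw [norm_sub_root hp, one_pow]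
    linear_combination -h⟩

/-- the norm groups at a `p`-adic place -/
theorem nsy_NG (hp : p.Prime) {ζ : Eˣ} (hζ : IsPrimitiveRoot ζ p)
    {O : ValuationSubring E} {ϖ : Eˣ} (W : Wl p ζ O ϖ)
    (hsymm : ∀ a b : Eˣ, b ∈ NG p hp.ne_zero a → a ∈ NG p hp.ne_zero b) :
    Nsy p ζ O (NG p hp.ne_zero) where
  symm := hsymm
  pow := pow_mem_NG hp.ne_zero
  sum := fun u v h => sum_mem_NG hp.ne_zero h
  unr := by
    intro t ht htp z hz
    obtain ⟨y, hy⟩ := hz
    have hl0 := lam_ne hp hζ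
    have hlp : (1 - (ζ : E)) ^ p ≠ 0 := pow_ne_zero _ hl0
    have hlv : 0 < O.valuation ((1 - (ζ : E)) ^ p) :=
      zero_lt_iff.2 ((Valuation.ne_zero_iff _).2 hlp)
    obtain ⟨x, hx⟩ : ∃ x : E, (t : E) = 1 + (1 - (ζ : E)) ^ p * x :=
      ⟨((t : E) - 1) / (1 - (ζ : E)) ^ p, by rw [mul_div_cancel₀ _ hlp]; ring⟩
    have hxv : O.valuation x ≤ 1 := by
      rw [hx, add_sub_cancel_left, map_mul, ← map_pow] at ht
      exact (mul_le_iff_le_one_right hlv).1 ht
    have hy0 : y ≠ 0 := by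
      rintro rfl
      have _ : Nontrivial (AdjoinRoot (X ^ p - C (t : E))) := by
        apply Module.nontrivial_of_finrank_pos (R := E)
        rw [finrank_xpa hp.ne_zero]
        exact hp.pos
      have _ : Module.Finite E (AdjoinRoot (X ^ p - C (t : E))) :=
        (xpa_monic hp.ne_zero _).finite_adjoinRoot
      rw [Algebra.norm_zero] at hy
      exact z.ne_zero hy.symm
    have key : ∀ (t' : E) (y : AdjoinRoot (X ^ p - C t')), t' = 1 + (1 - (ζ : E)) ^ p * x →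
        y ≠ 0 → (∀ θ : E, θ ^ p ≠ t') →
          ∃ c : E, c ≠ 0 ∧ O.valuation (Algebra.norm E y) = O.valuation c ^ p := by
      rintro t' y rfl hy h
      exact unr_norm hp hζ O W.pv hxv W.hD h y hy
    obtain ⟨c, hc, hc1⟩ := key (t : E) y hx hy0 (by
      intro θ hθ
      have hθ0 : θ ≠ 0 := by
        rintro rfl
        rw [zero_pow hp.ne_zero] at hθ
        exact t.ne_zero hθ.symm
      apply htp (Units.mk0 θ hθ0)
      ext
      rw [Units.val_pow_eq_pow_val, Units.val_mk0, hθ])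
    refine ⟨Units.mk0 c hc, ?_⟩
    rw [← hy, hc1, Units.val_mk0]

/-- **LOC2** for norm groups: `E* = X T` with `X` and `T` orthogonal, the `X`-components of `u` and
`v` orthogonal if `u + v = 1`, and `X` not contained in the group of `p`-th powers; then `T` is the
group of `p`-th powers. -/
theorem loc2_nrm (hp : p.Prime) {ζ : Eˣ} (hζ : IsPrimitiveRoot ζ p)
    {O : ValuationSubring E} {ϖ : Eˣ} (W : Wl p ζ O ϖ)
    (hsymm : ∀ a b : Eˣ, (∃ y : AdjoinRoot (X ^ p - C (a : E)), Algebra.norm E y = (b : E)) →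
      ∃ y : AdjoinRoot (X ^ p - C (b : E)), Algebra.norm E y = (a : E))
    {X' T : Subgroup Eˣ} (hTp : ∀ c : Eˣ, c ^ p ∈ T) (htop : X' ⊔ T = ⊤)
    (orth : ∀ x ∈ X', ∀ t ∈ T, ∃ y : AdjoinRoot (X ^ p - C (x : E)), Algebra.norm E y = (t : E))
    (pr : ∀ u v : Eˣ, (u : E) + v = 1 → ∀ x ∈ X', ∀ t ∈ T, ∀ x' ∈ X', ∀ t' ∈ T,
      u = x * t → v = x' * t' →
        ∃ y : AdjoinRoot (X ^ p - C (x : E)), Algebra.norm E y = (x' : E))
    (hX : ∃ x ∈ X', ∀ c : Eˣ, c ^ p ≠ x) : ∀ t ∈ T, ∃ c : Eˣ, c ^ p = t :=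
  W.loc2 hp hζ (nsy_NG hp hζ W hsymm) hTp htop orth pr hX

end

end Pool.Agent.Helper48.ETC
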