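import Mathlib
import Pool.Agent.Helper48.ETC.Nrm2
import Pool.Agent.Helper24.ETC.Single
import Pool.Agent.Helper66.ETC.Up
import Pool.Agent.Helper39.FAM.Pl
import Pool.Agent.Helper95.EC.K2M

set_option autoImplicit false

/-! LOC2 over the decomposition field of a `p`-adic place. -/

namespace Pool.Agent.Helper48.ETC

open Pool.Agent.ETC Polynomial

section

variable {F L K : Type} [Field F] [Field L] [Field K] [Algebra F L] [Algebra L K] [Algebra F K]
  [IsScalarTower F L K] {p : ℕ}

/-- the `p`-adic data of the decomposition field -/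
theorem exists_wl (hp : p.Prime) (h : PCl p F K) {ζ : F} (hζ : IsPrimitiveRoot ζ p)
    {W : ValuationSubring K} (h2 : V2 p (W.comap (algebraMap F K)))
    (hL : ∀ x : K, InL F W x ↔ ∃ y : L, algebraMap L K y = x) {z : Lˣ}
    (hz : (z : L) = algebraMap F L ζ) :
    ∃ ϖ : Lˣ, Wl p z (W.comap (algebraMap L K)) ϖ := by
  have htop : Top ζ (W.comap (algebraMap F K)) := h2.top hp hζ
  have htow : ∀ f : F, algebraMap F K f = algebraMap L K (algebraMap F L f) :=
    fun f => IsScalarTower.algebraMap_apply F L K f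
  obtain ⟨O, hO⟩ : ∃ O, O = W.comap (algebraMap L K) := ⟨_, rfl⟩
  have hOR : O.comap (algebraMap F L) = W.comap (algebraMap F K) := by
    rw [hO]
    exact comap_tower (F := F) (E := L) W
  have hle : ∀ f g : F, O.valuation (algebraMap F L f) ≤ O.valuation (algebraMap F L g) ↔
      (W.comap (algebraMap F K)).valuation f ≤ (W.comap (algebraMap F K)).valuation g := by
    intro f g
    rw [le_iff_le, hOR]
  have hlt : ∀ f g : F, O.valuation (algebraMap F L f) < O.valuation (algebraMap F L g) ↔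
      (W.comap (algebraMap F K)).valuation f < (W.comap (algebraMap F K)).valuation g := by
    intro f g
    rw [lt_iff_lt, hOR]
  have hle1 : ∀ f : F, O.valuation (algebraMap F L f) ≤ 1 ↔
      (W.comap (algebraMap F K)).valuation f ≤ 1 := by
    intro f
    rw [le_one_iff, hOR]
  have hlt1 : ∀ f : F, O.valuation (algebraMap F L f) < 1 ↔
      (W.comap (algebraMap F K)).valuation f < 1 := by
    intro f
    rw [lt_one_iff', hOR]
  have hlam1 : O.valuation (algebraMap F L (1 - ζ)) ≤ 1 := by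
    rw [hle1]
    exact lam_le hp.ne_zero hζ.pow_eq_one _
  -- approximation by elements of `F`
  have happ : ∀ x : L, x ≠ 0 → ∃ (f : Fˣ) (m : L),
      O.valuation m < O.valuation (algebraMap F L (1 - ζ)) ^ p ∧
        x = algebraMap F L (f : F) * (1 + m) := by
    intro x hx
    obtain ⟨f, m, hm, hmv, hxm⟩ := v1 h hp hζ.pow_eq_one (hζ.ne_one hp.one_lt) htop
      (x := algebraMap L K x) (by rwa [Ne, map_eq_zero]) ((hL _).2 ⟨x, rfl⟩)
    obtain ⟨m, rfl⟩ := (hL _).1 hm
    refine ⟨f, m, ?_, ?_⟩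
    · rw [htow, ← map_pow, ← map_pow, lt_iff_lt, ← hO, map_pow] at hmv
      exact hmv
    · apply (algebraMap L K).injective
      rw [hxm, map_mul, map_add, map_one, htow]
  have hval : ∀ x : L, x ≠ 0 → ∃ f : Fˣ, O.valuation x = O.valuation (algebraMap F L (f : F)) ∧
      O.valuation (x - algebraMap F L (f : F)) < O.valuation x := by
    intro x hx
    obtain ⟨f, m, hm, hxm⟩ := happ x hx
    have hm1 : O.valuation m < 1 := hm.trans_le (pow_le_one₀ zero_le hlam1)
    have h3 : O.valuation x = O.valuation (algebraMap F L (f : F)) := by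
      rw [hxm, map_mul, Valuation.map_one_add_of_lt _ hm1, mul_one]
    refine ⟨f, h3, ?_⟩
    have h4 : x - algebraMap F L (f : F) = algebraMap F L (f : F) * m := by
      rw [hxm]
      ring
    rw [h4, h3, map_mul]
    refine mul_lt_of_lt_one_right ?_ hm1
    rw [zero_lt_iff, Valuation.ne_zero_iff, Ne, map_eq_zero]
    exact f.ne_zero
  obtain ⟨π, hπ1, hπ2, ⟨e, he⟩, hπ3⟩ := h2.unif
  have hπ0 : algebraMap F L (π : F) ≠ 0 := by
    rw [Ne, map_eq_zero]
    exact π.ne_zero
  refine ⟨Units.mk0 _ hπ0, ?_⟩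
  rw [← hO]
  refine ⟨?_, ?_, ?_, ?_, ⟨e, ?_⟩, ?_, ?_⟩
  · have := (hlt1 (p : F)).2 h2.pv
    rwa [map_natCast] at this
  · -- the residue field
    have _ := h2.fin
    have hmem : ∀ f : W.comap (algebraMap F K), algebraMap F L (f : F) ∈ O := by
      intro f
      rw [← O.valuation_le_one_iff, hle1, ValuationSubring.valuation_le_one_iff]
      exact f.2
    obtain ⟨s, hs⟩ : ∃ s : IsLocalRing.ResidueField (W.comap (algebraMap F K)) →
        W.comap (algebraMap F K), ∀ a, IsLocalRing.residue _ (s a) = a :=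
      ⟨Function.surjInv IsLocalRing.residue_surjective, Function.surjInv_eq _⟩
    refine Finite.of_surjective (α := IsLocalRing.ResidueField (W.comap (algebraMap F K)))
      (fun a => IsLocalRing.residue O ⟨algebraMap F L ((s a : W.comap (algebraMap F K)) : F),
          hmem _⟩) ?_
    intro b
    obtain ⟨x, hxO, rfl⟩ := Pool.Agent.Helper58.ET.lift_res O b
    by_cases hx1 : O.valuation x < 1
    · refine ⟨0, ?_⟩
      have h4 := hs 0
      rw [Pool.Agent.Helper58.EB.residue_eq_zero_iff] at h4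
      have h5 : IsLocalRing.residue O ⟨x, hxO⟩ = 0 :=
        (Pool.Agent.Helper58.EB.residue_eq_zero_iff O _).2 hx1
      rw [h5, Pool.Agent.Helper58.EB.residue_eq_zero_iff]
      exact (hlt1 _).2 h4
    · have hx1' : O.valuation x = 1 :=
        le_antisymm ((O.valuation_le_one_iff _).2 hxO) (not_lt.1 hx1)
      have hx0 : x ≠ 0 := by
        rintro rfl
        rw [map_zero] at hx1'
        exact zero_ne_one hx1'
      obtain ⟨f, hf, hf1⟩ := hval x hx0
      rw [hx1'] at hf hf1
      have hfR : (f : F) ∈ W.comap (algebraMap F K) := by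
        rw [← ValuationSubring.valuation_le_one_iff, ← hle1]
        exact hf.symm.le
      refine ⟨IsLocalRing.residue _ ⟨(f : F), hfR⟩, ?_⟩
      obtain ⟨g, hg⟩ : ∃ g, g = s (IsLocalRing.residue _ ⟨(f : F), hfR⟩) := ⟨_, rfl⟩
      have h4 : IsLocalRing.residue (W.comap (algebraMap F K)) g =
          IsLocalRing.residue (W.comap (algebraMap F K)) ⟨(f : F), hfR⟩ := by
        rw [hg]
        exact hs _
      change IsLocalRing.residue O ⟨algebraMap F L ((s (IsLocalRing.residue _ ⟨(f : F), hfR⟩) :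
        W.comap (algebraMap F K)) : F), hmem _⟩ = _
      rw [← sub_eq_zero, ← map_sub, Pool.Agent.Helper58.EB.residue_eq_zero_iff] at h4
      have h5 := (hlt1 _).2 h4
      rw [← sub_eq_zero, ← map_sub, Pool.Agent.Helper58.EB.residue_eq_zero_iff]
      have h6 : ((⟨algebraMap F L ((s (IsLocalRing.residue _ ⟨(f : F), hfR⟩) :
          W.comap (algebraMap F K)) : F), hmem _⟩ - ⟨x, hxO⟩ : O) : L) =
          algebraMap F L (((g - ⟨(f : F), hfR⟩ : W.comap (algebraMap F K)) : F)) +
            (algebraMap F L (f : F) - x) := by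
        rw [← hg]
        have h7 : ((g - ⟨(f : F), hfR⟩ : W.comap (algebraMap F K)) : F) = (g : F) - f := rfl
        have h8 : ((⟨algebraMap F L (g : F), hmem g⟩ - ⟨x, hxO⟩ : O) : L) =
          algebraMap F L (g : F) - x := rfl
        rw [h7, h8, map_sub]
        ring
      rw [h6]
      refine Valuation.map_add_lt _ h5 ?_
      rw [← Valuation.map_neg, neg_sub]
      exact hf1
  · rw [Units.val_mk0]
    exact (hlt1 _).2 hπ1
  · intro x hx
    rw [Units.val_mk0]
    by_cases hx0 : x = 0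
    · rw [hx0, map_zero]
      exact zero_le
    obtain ⟨f, hf, _⟩ := hval x hx0
    rw [hf, hle]
    apply hπ2
    rw [← hlt1, ← hf]
    exact hx
  · rw [Units.val_mk0, ← map_pow, ← map_pow]
    have h4 : ((p : ℕ) : L) = algebraMap F L (p : F) := by rw [map_natCast]
    rw [h4, hle, map_pow]
    exact he
  · intro x
    obtain ⟨f, hf, _⟩ := hval (x : L) x.ne_zero
    obtain ⟨g, n, hg⟩ := hπ3 f
    have hg0 : algebraMap F L (g : F) ≠ 0 := by
      rw [Ne, map_eq_zero]
      exact g.ne_zero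
    refine ⟨Units.mk0 _ hg0, n, ?_⟩
    rw [← map_pow, ← map_pow, ← map_mul] at hg
    have h4 : O.valuation (algebraMap F L (f : F)) =
        O.valuation (algebraMap F L ((g : F) ^ p * (π : F) ^ n)) :=
      le_antisymm ((hle _ _).2 hg.le) ((hle _ _).2 hg.ge)
    rw [Units.val_mk0, Units.val_mk0, hf, h4, map_mul, map_mul, map_pow, map_pow, map_pow, map_pow]
  · intro x hx
    have hx' : W.valuation (algebraMap L K (x - 1)) < W.valuation (algebraMap F K (1 - ζ)) ^ p := by
      rw [htow, ← map_pow, ← map_pow, lt_iff_lt, ← hO, map_pow, map_sub (algebraMap F L), map_one,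
        ← hz]
      exact hx
    obtain ⟨l, hl, hlp, _⟩ := v2 h hp hζ ((hL _).2 ⟨_, rfl⟩) hx'
    obtain ⟨y, rfl⟩ := (hL _).1 hl
    refine ⟨y, ?_⟩
    apply (algebraMap L K).injective
    rw [map_pow, hlp, map_sub, map_one]
    ring

/-- **LOC2** over the decomposition field of a `p`-adic place, in the form needed for SINGLE. -/
theorem noSplit_V2' (hp : p.Prime) (h : PCl p F K) {ζ : F} (hζ : IsPrimitiveRoot ζ p)
    {W : ValuationSubring K} (h2 : V2 p (W.comap (algebraMap F K)))
    (hL : ∀ x : K, InL F W x ↔ ∃ y : L, algebraMap L K y = x)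
    (hsymm : ∀ a b : Lˣ, Nm p a b → Nm p b a) :
    Pool.Agent.Helper24.ETC.NoSplit (L := L) p (Nm p) := by
  have hζL : IsPrimitiveRoot (algebraMap F L ζ) p :=
    hζ.map_of_injective (algebraMap F L).injective
  obtain ⟨z, hz⟩ : ∃ z : Lˣ, (z : L) = algebraMap F L ζ :=
    ⟨Units.mk0 _ (hζL.ne_zero hp.ne_zero), Units.val_mk0 _⟩
  have hz' : IsPrimitiveRoot z p := by
    rw [← IsPrimitiveRoot.coe_units_iff, hz]
    exact hζL
  obtain ⟨ϖ, W'⟩ := exists_wl (L := L) hp h hζ h2 hL hz
  have hnm : ∀ a b : Lˣ, Nm p a b ↔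
      ∃ y : AdjoinRoot (X ^ p - C (a : L)), Algebra.norm L y = (b : L) := by
    intro a b
    constructor
    · rintro ⟨y, hy⟩
      exact ⟨(y : AdjoinRoot (X ^ p - C (a : L))), by rw [← hy]; rfl⟩
    · rintro ⟨y, hy⟩
      have hf : (X ^ p - C (a : L)).Monic := xpa_monic hp.ne_zero _
      have _ : Module.Finite L (AdjoinRoot (X ^ p - C (a : L))) := hf.finite_adjoinRoot
      have _ : Module.Free L (AdjoinRoot (X ^ p - C (a : L))) := hf.free_adjoinRoot
      have hu : IsUnit y := by
        have h3 : IsUnit (LinearMap.det (Algebra.lmul L _ y)) := by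
          have h4 : LinearMap.det (Algebra.lmul L _ y) = Algebra.norm L y := rfl
          rw [h4, hy]
          exact b.isUnit
        rw [← LinearMap.isUnit_iff_isUnit_det, Module.End.isUnit_iff] at h3
        obtain ⟨w, hw⟩ := h3.2 1
        exact IsUnit.of_mul_eq_one w hw
      exact ⟨hu.unit, by ext; exact hy⟩
  intro X' T hXp hTp htop orth pr
  by_cases hX : ∃ x ∈ X', ∀ c : Lˣ, c ^ p ≠ x
  · right
    intro t ht
    obtain ⟨c, hc⟩ := loc2_nrm hp hz' W' (fun a b hab => (hnm _ _).1 (hsymm _ _ ((hnm _ _).2 hab)))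
      hTp htop (fun x hx t ht => (hnm _ _).1 (orth x hx t ht))
      (fun u v huv x hx t ht x' hx' t' ht' h3 h4 =>
        (hnm _ _).1 (pr u v huv x hx t ht x' hx' t' ht' h3 h4).1) hX t ht
    exact ⟨c, hc.symm⟩
  · left
    push Not at hX
    intro x hx
    obtain ⟨c, hc⟩ := hX x hx
    exact ⟨c, hc.symm⟩

/-- **LOC2** over the decomposition field of a `p`-adic place. -/
theorem noSplit_V2 [Fact p.Prime] (h : PCl p F K) (hUP : PCl p L K) {ζ : F}
    (hζ : IsPrimitiveRoot ζ p) {W : ValuationSubring K} (h2 : V2 p (W.comap (algebraMap F K)))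
    (hL : ∀ x : K, InL F W x ↔ ∃ y : L, algebraMap L K y = x) :
    Pool.Agent.Helper24.ETC.NoSplit (L := L) p (Nm p) :=
  noSplit_V2' Fact.out h hζ h2 hL fun _ _ hab =>
    Pool.Agent.Helper95.EC.nm_symm hUP (hζ.map_of_injective (algebraMap F L).injective) hab

/-- not everything is a `p`-th power in the decomposition field of a `p`-adic place -/
theorem exists_not_pow (hp : p.Prime) (h : PCl p F K) {ζ : F} (hζ : IsPrimitiveRoot ζ p)
    {W : ValuationSubring K} (h2 : V2 p (W.comap (algebraMap F K)))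
    (hL : ∀ x : K, InL F W x ↔ ∃ y : L, algebraMap L K y = x) :
    ∃ x : Lˣ, ∀ c : Lˣ, x ≠ c ^ p := by
  have hζL : IsPrimitiveRoot (algebraMap F L ζ) p :=
    hζ.map_of_injective (algebraMap F L).injective
  obtain ⟨z, hz⟩ : ∃ z : Lˣ, (z : L) = algebraMap F L ζ :=
    ⟨Units.mk0 _ (hζL.ne_zero hp.ne_zero), Units.val_mk0 _⟩
  obtain ⟨ϖ, W'⟩ := exists_wl (L := L) hp h hζ h2 hL hz
  refine ⟨ϖ, fun c hc => W'.not_pow hp c ?_⟩
  rw [hc, Units.val_pow_eq_pow_val, map_pow]

end

end Pool.Agent.Helper48.ETC
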