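import Mathlib
import Pool.Agent.Helper48.ETC.Loc2W
import Pool.Agent.Helper24.ETC.Ndi
import Pool.Agent.ETC.All

set_option autoImplicit false

/-! SINGLE at the `p`-adic places. -/

namespace Pool.Agent.Helper48.ETC

open Pool.Agent.ETC Polynomial
open Pool.Agent.Helper24.ETC (Sy cl cl_surj pw sy_mem sy_mem' sy_symm sy_congr sy_sum io Pi' mem_Pi'
  single_abs cl_eq_one)

/-- extension of valuation rings -/
theorem exists_ext {F K : Type} [Field F] [Field K] [Algebra F K] (R : ValuationSubring F) :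
    ∃ W : ValuationSubring K, W.comap (algebraMap F K) = R := by
  obtain ⟨W, hle, hloc⟩ := (R.toLocalSubring.map (algebraMap F K)).exists_le_valuationSubring
  have h1 : ∀ x ∈ R, algebraMap F K x ∈ W := fun x hx => hle ⟨x, hx, rfl⟩
  refine ⟨W, le_antisymm ?_ h1⟩
  intro x hx
  rw [ValuationSubring.mem_comap] at hx
  by_contra hxR
  have hx0 : x ≠ 0 := by
    rintro rfl
    exact hxR R.zero_mem
  have hxi : x⁻¹ ∈ R := (R.mem_or_inv_mem x).resolve_left hxR
  have hmem : algebraMap F K x⁻¹ ∈ (R.toLocalSubring.map (algebraMap F K)).toSubring :=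
    ⟨x⁻¹, hxi, rfl⟩
  have hu : IsUnit (Subring.inclusion hle ⟨algebraMap F K x⁻¹, hmem⟩) := by
    refine isUnit_iff_exists_inv.2 ⟨⟨algebraMap F K x, hx⟩, ?_⟩
    apply Subtype.ext
    change algebraMap F K x⁻¹ * algebraMap F K x = 1
    rw [← map_mul, inv_mul_cancel₀ hx0, map_one]
  have hu2 := hloc.map_nonunit _ hu
  obtain ⟨⟨_, ⟨y, hy, rfl⟩⟩, hy1⟩ := isUnit_iff_exists_inv.1 hu2
  have h3 : algebraMap F K x⁻¹ * algebraMap F K y = 1 := congrArg Subtype.val hy1
  rw [← map_mul, ← map_one (algebraMap F K)] at h3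
  have h4 : x⁻¹ * y = 1 := (algebraMap F K).injective h3
  apply hxR
  have h5 : y = x := by
    rw [inv_mul_eq_one₀ hx0] at h4
    exact h4.symm
  rw [← h5]
  exact hy

/-- norms are norms after base change -/
theorem nm_io {F L : Type} [Field F] [Field L] [Algebra F L] {p : ℕ} (hp : p ≠ 0) {a b : Fˣ}
    (h : Nm p a b) : Nm p (io F L a) (io F L b) := by
  obtain ⟨y, hy⟩ := h
  obtain ⟨g, hg⟩ := AdjoinRoot.mk_surjective (y : AdjoinRoot (X ^ p - C (a : F)))
  have hm : (X ^ p - C (a : F)).Monic := xpa_monic hp _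
  have hy' : Algebra.norm F (AdjoinRoot.mk (X ^ p - C (a : F)) g) = (b : F) := by
    rw [hg, ← hy]
    rfl
  have h1 := norm_map (algebraMap F L) hm g
  rw [hy', Polynomial.map_sub, Polynomial.map_pow, map_X, map_C] at h1
  have hz : ∃ z : AdjoinRoot (X ^ p - C ((io F L a : Lˣ) : L)),
      Algebra.norm L z = ((io F L b : Lˣ) : L) := ⟨_, h1⟩
  obtain ⟨z, hz⟩ := hz
  have hf : (X ^ p - C ((io F L a : Lˣ) : L)).Monic := xpa_monic hp _
  have _ : Module.Finite L (AdjoinRoot (X ^ p - C ((io F L a : Lˣ) : L))) := hf.finite_adjoinRoot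
  have _ : Module.Free L (AdjoinRoot (X ^ p - C ((io F L a : Lˣ) : L))) := hf.free_adjoinRoot
  have hu : IsUnit z := by
    have h3 : IsUnit (LinearMap.det (Algebra.lmul L _ z)) := by
      have h4 : LinearMap.det (Algebra.lmul L _ z) = Algebra.norm L z := rfl
      rw [h4, hz]
      exact (io F L b).isUnit
    rw [← LinearMap.isUnit_iff_isUnit_det, Module.End.isUnit_iff] at h3
    obtain ⟨w, hw⟩ := h3.2 1
    exact IsUnit.of_mul_eq_one w hw
  exact ⟨hu.unit, by ext; exact hz⟩

/-- approximation of the solutions of `u + v = 1` in the decomposition field -/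
lemma approx_sum {F K : Type} [Field F] [Field K] [Algebra F K] {p : ℕ} (hp : p.Prime)
    (h : PCl p F K) {ζ : F} (hζ : IsPrimitiveRoot ζ p) {W : ValuationSubring K}
    (htop : Top ζ (W.comap (algebraMap F K))) {u v : K} (hu0 : u ≠ 0) (hv0 : v ≠ 0)
    (huv : u + v = 1) (hu : InL F W u) (hle : W.valuation u ≤ W.valuation v) :
    ∃ f g : Fˣ, (f : F) + g = 1 ∧ (∃ l : K, InL F W l ∧ u = algebraMap F K f * l ^ p) ∧
      ∃ l : K, InL F W l ∧ v = algebraMap F K g * l ^ p := by
  obtain ⟨f, m, hm, hmv, hum⟩ := v1 h hp hζ.pow_eq_one (hζ.ne_one hp.one_lt) htop hu0 hu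
  have hlam1 : W.valuation (algebraMap F K (1 - ζ)) ^ p ≤ 1 := by
    apply pow_le_one'
    rw [le_one_iff]
    exact lam_le hp.ne_zero hζ.pow_eq_one _
  have hm1 : W.valuation m < 1 := hmv.trans_le hlam1
  have hf0 : algebraMap F K (f : F) ≠ 0 := by
    rw [ne_eq, map_eq_zero]
    exact f.ne_zero
  have huf : W.valuation u = W.valuation (algebraMap F K (f : F)) := by
    rw [hum, map_mul, Valuation.map_one_add_of_lt _ hm1, mul_one]
  have hv0' : 0 < W.valuation v := zero_lt_iff.2 ((Valuation.ne_zero_iff _).2 hv0)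
  have hfm : W.valuation (algebraMap F K (f : F) * m) <
      W.valuation v * W.valuation (algebraMap F K (1 - ζ)) ^ p := by
    rw [map_mul, ← huf]
    exact mul_lt_mul_of_le_of_lt_of_nonneg_of_pos hle hmv zero_le hv0'
  have hfm1 : W.valuation (algebraMap F K (f : F) * m) < W.valuation v :=
    hfm.trans_le (mul_le_of_le_one_right zero_le hlam1)
  have hg : algebraMap F K (1 - (f : F)) = v + algebraMap F K (f : F) * m := by
    rw [map_sub, map_one]
    have h1 : v = 1 - u := by linear_combination huv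
    rw [h1, hum]
    ring
  have hgv : W.valuation (algebraMap F K (1 - (f : F))) = W.valuation v := by
    rw [hg, Valuation.map_add_eq_of_lt_left _ hfm1]
  have hg0 : 1 - (f : F) ≠ 0 := by
    intro e
    rw [e, map_zero, map_zero] at hgv
    exact hv0'.ne hgv
  have hgK0 : algebraMap F K (1 - (f : F)) ≠ 0 := by rwa [Ne, map_eq_zero]
  obtain ⟨l, hl, hlp, -⟩ := v2 h hp hζ hm hmv
  have hm' : InL F W (-(algebraMap F K (f : F) * m) / algebraMap F K (1 - (f : F))) := by
    intro σ hσ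
    rw [map_div₀, map_neg, map_mul, hm σ hσ, σ.commutes, σ.commutes]
  obtain ⟨l', hl', hlp', -⟩ := v2 h hp hζ hm' (by
    rw [map_div₀, Valuation.map_neg, hgv, div_lt_iff₀ hv0',
      mul_comm (W.valuation (algebraMap F K (1 - ζ)) ^ p)]
    exact hfm)
  refine ⟨f, Units.mk0 _ hg0, by rw [Units.val_mk0]; ring, ⟨l, hl, by rw [hlp]; exact hum⟩,
    ⟨l', hl', ?_⟩⟩
  rw [hlp', Units.val_mk0, mul_add, mul_one, mul_div_cancel₀ _ hgK0, hg]
  ring

/-- **SINGLE** at the `p`-adic places -/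
theorem single_V2 (hPCLUP : S_PCLUP) (p : ℕ) [Fact p.Prime] (F K : Type) [Field F] [Field K]
    [Algebra F K] (ζ : F) (hζ : IsPrimitiveRoot ζ p) (h : PCl p F K)
    (I : Type) [Finite I] (T : I → Subgroup Fˣ) (hO : Orth p T) (hG : Glue p T)
    (R : ValuationSubring F) (hR : V2 p R) : ∃ i, T i ≤ TR p ζ R := by
  classical
  have hp : p.Prime := Fact.out
  obtain ⟨W, rfl⟩ := exists_ext (K := K) R
  have htop : Top ζ (W.comap (algebraMap F K)) := hR.top hp hζ
  obtain ⟨L, hLdef⟩ : ∃ L : IntermediateField F K, L = IntermediateField.fixedField (Dec F W) :=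
    ⟨_, rfl⟩
  have hLm : ∀ x : K, x ∈ L ↔ InL F W x := by
    intro x
    rw [hLdef, IntermediateField.mem_fixedField_iff]
    rfl
  have hL : ∀ x : K, InL F W x ↔ ∃ y : L, algebraMap L K y = x := by
    intro x
    constructor
    · intro hx
      exact ⟨⟨x, (hLm x).2 hx⟩, rfl⟩
    · rintro ⟨y, rfl⟩
      exact (hLm _).1 y.2
  have hUP : PCl p L K := hPCLUP p F L K h
  have hζL : IsPrimitiveRoot (algebraMap F L ζ) p :=
    hζ.map_of_injective (algebraMap F L).injective
  have hpw : ∀ u : Fˣ, cl (pw F p) u = 1 ↔ ∃ c : Fˣ, u = c ^ p := by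
    intro u
    rw [cl_eq_one]
    constructor
    · rintro ⟨c, rfl⟩
      exact ⟨c, rfl⟩
    · rintro ⟨c, rfl⟩
      exact ⟨c, rfl⟩
  have hSyNm : ∀ a b : Fˣ, (∀ i, Sy (T i) a b) → Nm p a b := by
    intro a b hab
    exact Pool.Agent.Helper95.EC.nm_of_st h hζ (cl_surj _) hpw ((hG a b).1 hab)
  have hio : ∀ f : Fˣ, ((io F L f : Lˣ) : L) = algebraMap F L (f : F) := fun f => rfl
  have hconv : ∀ {x : L} {f : Fˣ} {l : K}, InL F W l → l ≠ 0 →
      algebraMap L K x = algebraMap F K (f : F) * l ^ p →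
        ∃ l' : Lˣ, x = ((io F L f * l' ^ p : Lˣ) : L) := by
    intro x f l hl hl0 hx
    obtain ⟨y, rfl⟩ := (hL l).1 hl
    have hy0 : y ≠ 0 := by
      rintro rfl
      rw [map_zero] at hl0
      exact hl0 rfl
    refine ⟨Units.mk0 y hy0, ?_⟩
    apply (algebraMap L K).injective
    rw [hx, Units.val_mul, Units.val_pow_eq_pow_val, Units.val_mk0, map_mul, map_pow, hio,
      ← IsScalarTower.algebraMap_apply]
  obtain ⟨i, hi⟩ := single_abs (F := F) (L := L) (T := T) (p := p) hO.onto (NL := Nm p)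
    (fun x y hxy => Pool.Agent.Helper95.EC.nm_symm hUP hζL hxy)
    (fun x y z hxy hxz => mul_mem hxy hxz)
    (fun x c => by
      have h1 := Pool.Agent.Helper95.EC.nm_symm hUP hζL
        (Pool.Agent.Helper95.EC.nm_pow (p := p) (Pool.Agent.Helper95.EC.p_ne hUP hζL) x c)
      exact h1)
    (fun i a ha t ht => nm_io hp.ne_zero (hO.orth i a t (mem_Pi'.1 ha) ht).1)
    (fun i f g hfg a ha b hb a' ha' b' hb' hab hab' => by
      have hsy : ∀ k, Sy (T k) f g := fun k => sy_sum hfg
      constructor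
      · apply nm_io hp.ne_zero
        apply hSyNm
        intro k
        by_cases hk : k = i
        · subst hk
          refine sy_congr ?_ ?_ (hsy k)
          · rwa [hab, mul_div_cancel_left]
          · rwa [hab', mul_div_cancel_left]
        · exact sy_mem (mem_Pi'.1 ha' k hk)
      · apply nm_io hp.ne_zero
        apply hSyNm
        intro k
        by_cases hk : k = i
        · subst hk
          exact sy_mem hb'
        · refine sy_congr ?_ ?_ (hsy k)
          · rw [hab, mul_div_cancel_right]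
            exact mem_Pi'.1 ha k hk
          · rw [hab', mul_div_cancel_right]
            exact mem_Pi'.1 ha' k hk)
    (fun hI a b => nm_io hp.ne_zero (hSyNm a b fun i => hI.elim i))
    (fun x => by
      obtain ⟨f, l, hl, hl0, hx⟩ := v4 h hp hζ htop (x := algebraMap L K (x : L))
        (by rw [Ne, map_eq_zero]; exact x.ne_zero) ((hL _).2 ⟨_, rfl⟩)
      obtain ⟨l', hl'⟩ := hconv hl hl0 hx
      exact ⟨f, l', Units.ext hl'⟩)
    (fun u v huv => by
      have hu0 : algebraMap L K (u : L) ≠ 0 := by rw [Ne, map_eq_zero]; exact u.ne_zero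
      have hv0 : algebraMap L K (v : L) ≠ 0 := by rw [Ne, map_eq_zero]; exact v.ne_zero
      have huv' : algebraMap L K (u : L) + algebraMap L K (v : L) = 1 := by
        rw [← map_add, huv, map_one]
      have hne : ∀ {x : L} {f : Fˣ} {l : K}, algebraMap L K x ≠ 0 →
          algebraMap L K x = algebraMap F K (f : F) * l ^ p → l ≠ 0 := by
        rintro x f l hx hxl rfl
        rw [zero_pow hp.ne_zero, mul_zero] at hxl
        exact hx hxl
      rcases le_total (W.valuation (algebraMap L K (u : L)))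
        (W.valuation (algebraMap L K (v : L))) with hle | hle
      · obtain ⟨f, g, hfg, ⟨l, hl, hul⟩, ⟨m, hm, hvm⟩⟩ := approx_sum hp h hζ htop hu0 hv0 huv'
          ((hL _).2 ⟨_, rfl⟩) hle
        obtain ⟨l', hl'⟩ := hconv hl (hne hu0 hul) hul
        obtain ⟨m', hm'⟩ := hconv hm (hne hv0 hvm) hvm
        exact ⟨f, g, hfg, ⟨l', Units.ext hl'⟩, ⟨m', Units.ext hm'⟩⟩
      · rw [add_comm] at huv'
        obtain ⟨g, f, hfg, ⟨m, hm, hvm⟩, ⟨l, hl, hul⟩⟩ := approx_sum hp h hζ htop hv0 hu0 huv'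
          ((hL _).2 ⟨_, rfl⟩) hle
        obtain ⟨l', hl'⟩ := hconv hl (hne hu0 hul) hul
        obtain ⟨m', hm'⟩ := hconv hm (hne hv0 hvm) hvm
        exact ⟨f, g, by rw [add_comm]; exact hfg, ⟨l', Units.ext hl'⟩, ⟨m', Units.ext hm'⟩⟩)
    (noSplit_V2 h hUP hζ hR hL) (exists_not_pow hp h hζ hR hL)
  refine ⟨i, fun t ht => ?_⟩
  obtain ⟨c, hc⟩ := hi t ht
  rw [← v3 h hp hζ htop]
  refine ⟨algebraMap L K (c : L), (hL _).2 ⟨_, rfl⟩, ?_⟩
  rw [← map_pow, ← Units.val_pow_eq_pow_val, ← hc, hio, ← IsScalarTower.algebraMap_apply]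

end Pool.Agent.Helper48.ETC
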